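import Mathlib
import Pool.Agent.Helper745.Mst
import Pool.Agent.Helper745.Geo
import Pool.Agent.Helper745.Addr
import Pool.Agent.Helper745.Star
import Pool.Agent.Helper745.Chain
import Pool.Agent.Helper745.Tree

set_option autoImplicit false

namespace Pool.Agent.Results.MP_9afe8f_co.AreaExponent

/-- Euclidean distance between two points of the integer grid. -/
noncomputable def gridDist (p q : ℤ × ℤ) : ℝ :=
  Real.sqrt (((p.1 : ℝ) - q.1) ^ 2 + ((p.2 : ℝ) - q.2) ^ 2)

theorem gridDist_comm (p q : ℤ × ℤ) : gridDist p q = gridDist q p := by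
  unfold gridDist; congr 1; ring

/-- Length of the straight edge between the images of two vertices. -/
noncomputable def edgeLength {n : ℕ} (φ : Fin n → ℤ × ℤ) : Sym2 (Fin n) → ℝ :=
  Sym2.lift ⟨fun a b => gridDist (φ a) (φ b), fun _ _ => gridDist_comm _ _⟩

open Classical in
/-- Sum of the lengths of all edges of a graph whose vertices are placed by φ. -/
noncomputable def totalLength {n : ℕ} (φ : Fin n → ℤ × ℤ) (G : SimpleGraph (Fin n)) : ℝ :=
  ∑ e ∈ G.edgeFinset, edgeLength φ e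

/-- φ is injective and T is a minimum spanning tree of the placed points. -/
def IsMinWeightDrawing {n : ℕ} (T : SimpleGraph (Fin n)) (φ : Fin n → ℤ × ℤ) : Prop :=
  Function.Injective φ ∧
    ∀ S : SimpleGraph (Fin n), S.IsTree → totalLength φ T ≤ totalLength φ S

/-- All vertices lie at points of {1..W} × {1..H}. -/
def FitsGrid {n : ℕ} (W H : ℕ) (φ : Fin n → ℤ × ℤ) : Prop :=
  ∀ v, 1 ≤ (φ v).1 ∧ (φ v).1 ≤ W ∧ 1 ≤ (φ v).2 ∧ (φ v).2 ≤ H

section Lower

open SimpleGraph

section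
variable {V : Type*}

/-- replace the edge xy of T by the edge ab -/
def swap (T : SimpleGraph V) (x y a b : V) : SimpleGraph V :=
  fromEdgeSet ((T.edgeSet \ {s(x, y)}) ∪ {s(a, b)})

theorem swap_edgeSet_subset (T : SimpleGraph V) (x y a b : V) :
    (swap T x y a b).edgeSet ⊆ (T.edgeSet \ {s(x, y)}) ∪ {s(a, b)} := by
  unfold swap
  rw [edgeSet_fromEdgeSet]
  exact Set.sdiff_subset

theorem swap_tree [Finite V] {T : SimpleGraph V} (hT : T.IsTree) {x y a b : V}
    (hxy : T.Adj x y) (hab : a ≠ b) (h1 : (T.deleteEdges {s(x, y)}).Reachable a x)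
    (h2 : (T.deleteEdges {s(x, y)}).Reachable y b) : (swap T x y a b).IsTree := by
  have hle : T.deleteEdges {s(x, y)} ≤ swap T x y a b := by
    intro u v huv
    rw [deleteEdges_adj] at huv
    unfold swap
    rw [fromEdgeSet_adj]
    exact ⟨Or.inl ⟨huv.1, huv.2⟩, huv.1.ne⟩
  have habS : (swap T x y a b).Adj a b := by
    unfold swap
    rw [fromEdgeSet_adj]
    exact ⟨Or.inr rfl, hab⟩
  have hxy' : (swap T x y a b).Reachable x y :=
    ((h1.mono hle).symm.trans habS.reachable).trans (h2.mono hle).symm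
  have hstep : ∀ u v, T.Adj u v → (swap T x y a b).Reachable u v := by
    intro u v huv
    by_cases h : s(u, v) = s(x, y)
    · rw [Sym2.eq_iff] at h
      rcases h with ⟨h1, h2⟩ | ⟨h1, h2⟩
      · rw [h1, h2]; exact hxy'
      · rw [h1, h2]; exact hxy'.symm
    · apply Adj.reachable
      apply hle
      rw [deleteEdges_adj]
      exact ⟨huv, h⟩
  have hwalk : ∀ u v, T.Walk u v → (swap T x y a b).Reachable u v := by
    intro u v q
    induction q with
    | nil => exact Reachable.refl _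
    | cons h _ ih2 => exact (hstep _ _ h).trans ih2
  have hconn : (swap T x y a b).Connected := by
    have := hT.connected.nonempty
    refine ⟨fun u v => ?_⟩
    obtain ⟨q⟩ := hT.connected u v
    exact hwalk u v q
  rw [isTree_iff_connected_and_card]
  refine ⟨hconn, le_antisymm ?_ ?_⟩
  · rw [isTree_iff_connected_and_card] at hT
    rw [← hT.2]
    have c1 : (swap T x y a b).edgeSet.ncard ≤ ((T.edgeSet \ {s(x, y)}) ∪ {s(a, b)}).ncard :=
      Set.ncard_le_ncard (swap_edgeSet_subset T x y a b) (Set.toFinite _)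
    have c2 : ((T.edgeSet \ {s(x, y)}) ∪ {s(a, b)}).ncard ≤
        (T.edgeSet \ {s(x, y)}).ncard + ({s(a, b)} : Set (Sym2 V)).ncard :=
      Set.ncard_union_le _ _
    have c3 : (T.edgeSet \ {s(x, y)}).ncard + 1 = T.edgeSet.ncard :=
      Set.ncard_sdiff_singleton_add_one (show s(x, y) ∈ T.edgeSet from hxy) (Set.toFinite _)
    rw [Set.ncard_singleton] at c2
    have e1 : Nat.card (swap T x y a b).edgeSet = (swap T x y a b).edgeSet.ncard := rfl
    have e2 : Nat.card T.edgeSet = T.edgeSet.ncard := rfl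
    rw [e1, e2]
    omega
  · exact hconn.card_vert_le_card_edgeSet_add_one
end

theorem edgeLength_nonneg {n : ℕ} (φ : Fin n → ℤ × ℤ) (e : Sym2 (Fin n)) :
    0 ≤ edgeLength φ e := by
  induction e using Sym2.ind with
  | _ a b => exact Real.sqrt_nonneg _

theorem totalLength_swap {n : ℕ} (φ : Fin n → ℤ × ℤ) (T : SimpleGraph (Fin n)) {x y a b : Fin n}
    (hxy : T.Adj x y) :
    totalLength φ (swap T x y a b) ≤
      totalLength φ T - edgeLength φ s(x, y) + edgeLength φ s(a, b) := by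
  classical
  unfold totalLength
  have hs : (swap T x y a b).edgeFinset ⊆ insert s(a, b) (T.edgeFinset.erase s(x, y)) := by
    intro e he
    rw [mem_edgeFinset] at he
    have := swap_edgeSet_subset T x y a b he
    rw [Finset.mem_insert, Finset.mem_erase, mem_edgeFinset]
    rcases this with h | h
    · exact Or.inr ⟨h.2, h.1⟩
    · exact Or.inl h
  have h1 : ∑ e ∈ (swap T x y a b).edgeFinset, edgeLength φ e ≤
      ∑ e ∈ insert s(a, b) (T.edgeFinset.erase s(x, y)), edgeLength φ e :=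
    Finset.sum_le_sum_of_subset_of_nonneg hs (fun e _ _ => edgeLength_nonneg φ e)
  have h2 : ∑ e ∈ insert s(a, b) (T.edgeFinset.erase s(x, y)), edgeLength φ e ≤
      edgeLength φ s(a, b) + ∑ e ∈ T.edgeFinset.erase s(x, y), edgeLength φ e := by
    by_cases h : s(a, b) ∈ T.edgeFinset.erase s(x, y)
    · rw [Finset.insert_eq_of_mem h]
      have := edgeLength_nonneg φ s(a, b)
      linarith
    · rw [Finset.sum_insert h]
  have h3 : edgeLength φ s(x, y) + ∑ e ∈ T.edgeFinset.erase s(x, y), edgeLength φ e =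
      ∑ e ∈ T.edgeFinset, edgeLength φ e := by
    apply Finset.add_sum_erase T.edgeFinset (fun e => edgeLength φ e)
    rw [mem_edgeFinset]; exact hxy
  have e1 : ∑ e ∈ (swap T x y a b).edgeFinset, edgeLength φ e ≤
      ∑ e ∈ T.edgeFinset, edgeLength φ e - edgeLength φ s(x, y) + edgeLength φ s(a, b) := by
    linarith
  convert e1 using 2

/-- complex coordinates of a placement -/
noncomputable def toC {n : ℕ} (φ : Fin n → ℤ × ℤ) (v : Fin n) : ℂ :=
  ⟨((φ v).1 : ℝ), ((φ v).2 : ℝ)⟩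

theorem gridDist_eq {n : ℕ} (φ : Fin n → ℤ × ℤ) (a b : Fin n) :
    gridDist (φ a) (φ b) = ‖toC φ a - toC φ b‖ := by
  unfold gridDist toC
  rw [Complex.norm_def, Complex.normSq_apply]
  congr 1
  simp only [Complex.sub_re, Complex.sub_im]
  ring

theorem toC_inj {n : ℕ} {φ : Fin n → ℤ × ℤ} (h : Function.Injective φ) {a b : Fin n}
    (hab : toC φ a = toC φ b) : a = b := by
  apply h
  unfold toC at hab
  rw [Complex.ext_iff] at hab
  simp only at hab
  ext
  · exact_mod_cast hab.1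
  · exact_mod_cast hab.2

theorem exch {n : ℕ} {T : SimpleGraph (Fin n)} {φ : Fin n → ℤ × ℤ} (hT : T.IsTree)
    (h : IsMinWeightDrawing T φ) {x y a b : Fin n} (hxy : T.Adj x y) (hab : a ≠ b)
    (h1 : (T.deleteEdges {s(x, y)}).Reachable a x)
    (h2 : (T.deleteEdges {s(x, y)}).Reachable y b) :
    ‖toC φ x - toC φ y‖ ≤ ‖toC φ a - toC φ b‖ := by
  have h3 := h.2 _ (swap_tree hT hxy hab h1 h2)
  have h4 := totalLength_swap φ T (a := a) (b := b) hxy
  have e1 : edgeLength φ s(x, y) = ‖toC φ x - toC φ y‖ := gridDist_eq φ x y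
  have e2 : edgeLength φ s(a, b) = ‖toC φ a - toC φ b‖ := gridDist_eq φ a b
  rw [e1, e2] at h4
  linarith

theorem mw {n : ℕ} {T : SimpleGraph (Fin n)} {φ : Fin n → ℤ × ℤ} (hT : T.IsTree)
    (h : IsMinWeightDrawing T φ) : Pool.Agent.Helper745.Star.MW T (toC φ) := by
  have hadj : ∀ {x y u v : Fin n}, T.Adj u v → s(u, v) ≠ s(x, y) →
      (T.deleteEdges {s(x, y)}).Reachable u v := by
    intro x y u v huv hne
    apply Adj.reachable
    rw [deleteEdges_adj]
    exact ⟨huv, hne⟩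
  refine ⟨?_, ?_, ?_⟩
  · intro a b hab hc
    exact hab.ne (toC_inj h.1 hc)
  · intro a b c hab hbc hac
    constructor
    · apply exch hT h hab hac (Reachable.refl _)
      apply hadj hbc
      rw [Ne, Sym2.eq_iff]
      rintro (⟨h1, h2⟩ | ⟨h1, h2⟩)
      · exact hab.ne h1.symm
      · exact hac h2.symm
    · apply exch hT h hbc hac _ (Reachable.refl _)
      apply hadj hab
      rw [Ne, Sym2.eq_iff]
      rintro (⟨h1, h2⟩ | ⟨h1, h2⟩)
      · exact hab.ne h1
      · exact hac h1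
  · intro a b c d hab hbc hcd hac hbd
    have had : a ≠ d := by
      rintro rfl
      have hb : T.IsBridge s(a, b) := (isAcyclic_iff_forall_adj_isBridge.mp hT.isAcyclic) hab
      rw [isBridge_iff] at hb
      apply hb
      have r1 : (T.deleteEdges {s(a, b)}).Reachable a c := by
        apply hadj hcd.symm
        rw [Ne, Sym2.eq_iff]
        rintro (⟨h1, h2⟩ | ⟨h1, h2⟩)
        · exact hbc.ne h2.symm
        · exact hac h2.symm
      have r2 : (T.deleteEdges {s(a, b)}).Reachable c b := by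
        apply hadj hbc.symm
        rw [Ne, Sym2.eq_iff]
        rintro (⟨h1, h2⟩ | ⟨h1, h2⟩)
        · exact hac h1.symm
        · exact hbc.ne h1.symm
      exact r1.trans r2
    refine ⟨?_, ?_, ?_⟩
    · apply exch hT h hab had (Reachable.refl _)
      have r1 : (T.deleteEdges {s(a, b)}).Reachable b c := by
        apply hadj hbc
        rw [Ne, Sym2.eq_iff]
        rintro (⟨h1, h2⟩ | ⟨h1, h2⟩)
        · exact hab.ne h1.symm
        · exact hac h2.symm
      have r2 : (T.deleteEdges {s(a, b)}).Reachable c d := by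
        apply hadj hcd
        rw [Ne, Sym2.eq_iff]
        rintro (⟨h1, h2⟩ | ⟨h1, h2⟩)
        · exact hac h1.symm
        · exact hbc.ne h1.symm
      exact r1.trans r2
    · apply exch hT h hbc had
      · apply hadj hab
        rw [Ne, Sym2.eq_iff]
        rintro (⟨h1, h2⟩ | ⟨h1, h2⟩)
        · exact hab.ne h1
        · exact hac h1
      · apply hadj hcd
        rw [Ne, Sym2.eq_iff]
        rintro (⟨h1, h2⟩ | ⟨h1, h2⟩)
        · exact hbc.ne h1.symm
        · exact hbd h2.symm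
    · apply exch hT h hcd had _ (Reachable.refl _)
      have r1 : (T.deleteEdges {s(c, d)}).Reachable a b := by
        apply hadj hab
        rw [Ne, Sym2.eq_iff]
        rintro (⟨h1, h2⟩ | ⟨h1, h2⟩)
        · exact hac h1
        · exact hbc.ne h2
      have r2 : (T.deleteEdges {s(c, d)}).Reachable b c := by
        apply hadj hbc
        rw [Ne, Sym2.eq_iff]
        rintro (⟨h1, h2⟩ | ⟨h1, h2⟩)
        · exact hbc.ne h1
        · exact hbd h1
      exact r1.trans r2

open Pool.Agent.Helper745.Chain Pool.Agent.Helper745.Tree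

theorem one_le_dist {n : ℕ} {φ : Fin n → ℤ × ℤ} (h : Function.Injective φ) {a b : Fin n}
    (hab : a ≠ b) : 1 ≤ ‖toC φ a - toC φ b‖ := by
  rw [← gridDist_eq]
  unfold gridDist
  rw [Real.one_le_sqrt]
  have h1 : φ a ≠ φ b := fun hc => hab (h hc)
  have h2 : (1 : ℤ) ≤ ((φ a).1 - (φ b).1) ^ 2 + ((φ a).2 - (φ b).2) ^ 2 := by
    by_contra hc
    push Not at hc
    have h3 : ((φ a).1 - (φ b).1) ^ 2 = 0 := by
      have := sq_nonneg ((φ a).1 - (φ b).1)
      have := sq_nonneg ((φ a).2 - (φ b).2)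
      omega
    have h4 : ((φ a).2 - (φ b).2) ^ 2 = 0 := by
      have := sq_nonneg ((φ a).1 - (φ b).1)
      have := sq_nonneg ((φ a).2 - (φ b).2)
      omega
    rw [sq_eq_zero_iff, sub_eq_zero] at h3 h4
    exact h1 (Prod.ext h3 h4)
  exact_mod_cast h2

theorem dist_le {n W H : ℕ} {φ : Fin n → ℤ × ℤ} (h : FitsGrid W H φ) (a b : Fin n) :
    ‖toC φ a - toC φ b‖ ≤ 2 * ((W : ℝ) * H) := by
  rw [← gridDist_eq]
  unfold gridDist
  obtain ⟨a1, a2, a3, a4⟩ := h a
  obtain ⟨b1, b2, b3, b4⟩ := h b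
  have a1' : (1 : ℝ) ≤ (φ a).1 := by exact_mod_cast a1
  have a2' : ((φ a).1 : ℝ) ≤ W := by exact_mod_cast a2
  have a3' : (1 : ℝ) ≤ (φ a).2 := by exact_mod_cast a3
  have a4' : ((φ a).2 : ℝ) ≤ H := by exact_mod_cast a4
  have b1' : (1 : ℝ) ≤ (φ b).1 := by exact_mod_cast b1
  have b2' : ((φ b).1 : ℝ) ≤ W := by exact_mod_cast b2
  have b3' : (1 : ℝ) ≤ (φ b).2 := by exact_mod_cast b3
  have b4' : ((φ b).2 : ℝ) ≤ H := by exact_mod_cast b4
  have hW : (1 : ℝ) ≤ W := a1'.trans a2'
  have hH : (1 : ℝ) ≤ H := a3'.trans a4'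
  apply Real.sqrt_le_iff.mpr
  constructor
  · positivity
  · have s1 : (((φ a).1 : ℝ) - (φ b).1) ^ 2 ≤ (W : ℝ) ^ 2 := by
      apply sq_le_sq'
      · linarith
      · linarith
    have s2 : (((φ a).2 : ℝ) - (φ b).2) ^ 2 ≤ (H : ℝ) ^ 2 := by
      apply sq_le_sq'
      · linarith
      · linarith
    have s3 : (W : ℝ) ^ 2 ≤ (W * H) ^ 2 := by
      apply pow_le_pow_left₀ (by linarith)
      nlinarith
    have s4 : (H : ℝ) ^ 2 ≤ (W * H) ^ 2 := by
      apply pow_le_pow_left₀ (by linarith)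
      nlinarith
    nlinarith

theorem area_lower {n m W H : ℕ} {T : SimpleGraph (Fin n)} {L : ℕ} {f : List (Fin 5) → Fin n}
    (hT : T.IsTree) (hf : Emb T m L f) {φ : Fin n → ℤ × ℤ} (h : IsMinWeightDrawing T φ)
    (hW : FitsGrid W H φ) : (3 / 2 : ℝ) ^ (m.choose 2) ≤ 2 * ((W : ℝ) * H) := by
  have hm := mw hT h
  obtain ⟨c, hc, ht, hE⟩ := exists_arm hm hf
  have hc0 : c ≠ [] := by intro h; rw [h] at hc; simp at hc
  obtain ⟨_, h2⟩ := arm hm hf hc ht hE m le_rfl
  set l := c ++ List.replicate m 0 with hl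
  have hl0 : l ≠ [] := by rw [hl]; simp [hc0]
  have hA : A m L l := spine_A hc ht (by omega)
  have hadj : T.Adj (f l.dropLast) (f l) := by
    have := hf.adj l.dropLast (l.getLast hl0)
      (by rw [List.dropLast_append_getLast hl0]; exact hA)
    rw [List.dropLast_append_getLast hl0] at this
    exact this
  have h3 := one_le_dist h.1 hadj.ne
  have h4 := dist_le hW (f c.dropLast) (f c)
  have hp : (0 : ℝ) < (2 / 3) ^ (m.choose 2) := by positivity
  have h5 : (1 : ℝ) ≤ (2 / 3) ^ (m.choose 2) * (2 * ((W : ℝ) * H)) :=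
    (h3.trans h2).trans (mul_le_mul_of_nonneg_left h4 hp.le)
  have h6 : (3 / 2 : ℝ) ^ (m.choose 2) * (2 / 3) ^ (m.choose 2) = 1 := by
    rw [← mul_pow]; norm_num
  calc (3 / 2 : ℝ) ^ (m.choose 2) = (3 / 2 : ℝ) ^ (m.choose 2) * 1 := by ring
    _ ≤ (3 / 2 : ℝ) ^ (m.choose 2) * ((2 / 3) ^ (m.choose 2) * (2 * ((W : ℝ) * H))) := by
        apply mul_le_mul_of_nonneg_left h5; positivity
    _ = 2 * ((W : ℝ) * H) := by rw [← mul_assoc, h6, one_mul]

theorem lower : ∃ c : ℝ, 0 < c ∧ ∃ N : ℕ, ∀ n : ℕ, N ≤ n →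
    ∃ T : SimpleGraph (Fin n), T.IsTree ∧ (∀ v, (T.neighborSet v).ncard ≤ 5) ∧
      ∀ (W H : ℕ) (φ : Fin n → ℤ × ℤ), IsMinWeightDrawing T φ → FitsGrid W H φ →
        (2 : ℝ) ^ (c * (n : ℝ) ^ 2) ≤ (W : ℝ) * H := by
  set K : ℕ := 45 * C0 with hK
  have hK0 : 0 < K := by have := C0_pos; omega
  have hKr : (0 : ℝ) < K := by exact_mod_cast hK0
  refine ⟨1 / (16 * (K : ℝ) ^ 2), by positivity, 8 * K, ?_⟩
  intro n hn
  set m := n / K - 1 with hm
  have h8 : 8 ≤ n / K := (Nat.le_div_iff_mul_le hK0).mpr hn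
  have hm7 : 7 ≤ m := by omega
  have h1 : K * (m + 1) ≤ n := by
    have : m + 1 = n / K := by omega
    rw [this]; exact Nat.mul_div_le n K
  have h2 : n < K * (m + 2) := by
    have : m + 2 = n / K + 1 := by omega
    rw [this]; exact Nat.lt_mul_div_succ n hK0
  obtain ⟨T, L, f, hT, hd, hf⟩ := exists_tree n m h1
  refine ⟨T, hT, hd, ?_⟩
  intro W H φ hφ hW
  have h3 := area_lower hT hf hφ hW
  have h4 : (2 : ℝ) ^ (((m.choose 2 : ℕ) : ℝ) / 2) ≤ (3 / 2 : ℝ) ^ (m.choose 2) := by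
    have e1 : (2 : ℝ) ^ (((m.choose 2 : ℕ) : ℝ) / 2) =
        ((2 : ℝ) ^ (1 / 2 : ℝ)) ^ (m.choose 2) := by
      rw [← Real.rpow_natCast, ← Real.rpow_mul (by norm_num)]
      congr 1; ring
    rw [e1]
    apply pow_le_pow_left₀ (by positivity)
    rw [← Real.sqrt_eq_rpow]
    apply Real.sqrt_le_iff.mpr
    constructor
    · norm_num
    · norm_num
  have h5 : (2 : ℝ) ^ (((m.choose 2 : ℕ) : ℝ) / 2 - 1) ≤ (W : ℝ) * H := by
    rw [Real.rpow_sub_one (by norm_num)]
    linarith
  refine le_trans ?_ h5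
  apply Real.rpow_le_rpow_of_exponent_le (by norm_num)
  have h6 : ((m.choose 2 : ℕ) : ℝ) = m * (m - 1) / 2 := Nat.cast_choose_two ℝ m
  rw [h6]
  have h7 : (7 : ℝ) ≤ m := by exact_mod_cast hm7
  have h9 : (n : ℝ) ≤ K * (m + 2) := by exact_mod_cast h2.le
  have h10 : (n : ℝ) ^ 2 ≤ (K * (m + 2)) ^ 2 := pow_le_pow_left₀ (by positivity) h9 2
  have h11 : 1 / (16 * (K : ℝ) ^ 2) * (n : ℝ) ^ 2 ≤
      1 / (16 * (K : ℝ) ^ 2) * (K * (m + 2)) ^ 2 :=
    mul_le_mul_of_nonneg_left h10 (by positivity)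
  have h12 : 1 / (16 * (K : ℝ) ^ 2) * (K * ((m : ℝ) + 2)) ^ 2 = (m + 2) ^ 2 / 16 := by
    field_simp
  rw [h12] at h11
  refine h11.trans ?_
  nlinarith

end Lower

section Upper
open SimpleGraph

open Pool.Agent.Helper745.Geo Pool.Agent.Helper745.Addr

theorem round_close (s : ℤ) (z w : ℂ) :
    |gridDist (⌊z.re⌋ + s, ⌊z.im⌋ + s) (⌊w.re⌋ + s, ⌊w.im⌋ + s) - ‖z - w‖| ≤ 2 := by
  set d : ℂ := ⟨(⌊z.re⌋ : ℝ) - ⌊w.re⌋, (⌊z.im⌋ : ℝ) - ⌊w.im⌋⟩ with hd
  have h1 : gridDist (⌊z.re⌋ + s, ⌊z.im⌋ + s) (⌊w.re⌋ + s, ⌊w.im⌋ + s) = ‖d‖ := by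
    unfold gridDist
    rw [Complex.norm_def, Complex.normSq_apply]
    congr 1
    simp only [hd]
    push_cast
    ring
  rw [h1]
  refine (abs_norm_sub_norm_le _ _).trans ?_
  refine (Complex.norm_le_abs_re_add_abs_im _).trans ?_
  have hz1 := Int.floor_le z.re
  have hz2 := Int.lt_floor_add_one z.re
  have hz3 := Int.floor_le z.im
  have hz4 := Int.lt_floor_add_one z.im
  have hw1 := Int.floor_le w.re
  have hw2 := Int.lt_floor_add_one w.re
  have hw3 := Int.floor_le w.im
  have hw4 := Int.lt_floor_add_one w.im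
  have h2 : |(d - (z - w)).re| ≤ 1 := by
    simp only [Complex.sub_re, hd]
    rw [abs_le]; constructor <;> linarith
  have h3 : |(d - (z - w)).im| ≤ 1 := by
    simp only [Complex.sub_im, hd]
    rw [abs_le]; constructor <;> linarith
  linarith

theorem norm_step {C : ℝ} (hC : 0 < C) (s : ℕ) (a : List ℕ) : ∀ k : ℕ,
    ‖G C k (a ++ [s]) - G C k a‖ = L C (k + a.length) := by
  induction a with
  | nil =>
    intro k
    simp only [List.nil_append, List.length_nil, Nat.add_zero]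
    rw [G, G, sub_zero, norm_rot]
    simp only [G, add_zero]
    rw [Complex.norm_real, Real.norm_eq_abs, abs_of_pos (L_pos hC k)]
  | cons j a ih =>
    intro k
    have : G C k (j :: a ++ [s]) - G C k (j :: a) =
        Complex.exp ((ang k j : ℝ) * Complex.I) * (G C (k + 1) (a ++ [s]) - G C (k + 1) a) := by
      simp only [List.cons_append, G]; ring
    rw [this, norm_rot, ih (k + 1), List.length_cons]
    congr 1
    omega

/-- Every tree of maximum degree at most five has a minimum weight drawing on a square grid of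
side length `4 ^ (h ^ 2 + h + 3)` where `h = n / 2`. -/
theorem exists_drawing {n : ℕ} (T : SimpleGraph (Fin n)) (hT : T.IsTree)
    (hdeg : ∀ v, (T.neighborSet v).ncard ≤ 5) :
    ∃ φ : Fin n → ℤ × ℤ, IsMinWeightDrawing T φ ∧
      FitsGrid (4 ^ ((n / 2) ^ 2 + n / 2 + 3)) (4 ^ ((n / 2) ^ 2 + n / 2 + 3)) φ := by
  classical
  obtain ⟨r, hr⟩ := exists_centre hT
  set h := n / 2 with hh
  have hdist : ∀ v, T.dist r v ≤ h := by
    intro v
    have := hr v
    omega
  set C : ℝ := 4 ^ (h ^ 2 + h + 2) with hCdef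
  have hC : 0 < C := by positivity
  have hC16 : 16 ≤ C := by
    have : (4 : ℝ) ^ 2 ≤ 4 ^ (h ^ 2 + h + 2) := pow_le_pow_right₀ (by norm_num) (by omega)
    norm_num at this
    rw [hCdef]; exact this
  have hLh : L C h = 16 := by
    unfold L
    rw [hCdef, show h * (h + 1) = h ^ 2 + h by ring, pow_add (4 : ℝ) (h ^ 2 + h) 2,
      one_div, inv_pow]
    field_simp
    norm_num
  set P : Fin n → ℂ := fun v => G C 0 (addr T r v) with hP
  set s : ℤ := 2 * 4 ^ (h ^ 2 + h + 2) + 1 with hs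
  set φ : Fin n → ℤ × ℤ := fun v => (⌊(P v).re⌋ + s, ⌊(P v).im⌋ + s) with hφ
  have hclose : ∀ u v, |gridDist (φ u) (φ v) - ‖P u - P v‖| ≤ 2 := fun u v => round_close s _ _
  have hvalid := valid_addr hT hdeg r
  have hlen : ∀ v, 0 + (addr T r v).length ≤ h := by
    intro v; rw [length_addr, Nat.zero_add]; exact hdist v
  refine ⟨φ, ⟨?_, ?_⟩, ?_⟩
  · -- injectivity
    intro u v huv
    by_contra hne
    have haddr : addr T r u ≠ addr T r v := fun hc => hne (addr_inj hT r hc)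
    have hd0 : gridDist (φ u) (φ v) = 0 := by
      rw [huv]; unfold gridDist; simp
    have hcl := hclose u v
    rw [hd0, zero_sub, abs_neg, abs_of_nonneg (norm_nonneg _)] at hcl
    have key : ∀ x y, ¬ addr T r x <+: addr T r y → 16 ≤ ‖P x - P y‖ := by
      intro x y hxy
      have hl : 0 + (addr T r x).length - 1 ≤ h := by have := hlen x; omega
      have hLl := L_anti hC hl
      rcases cut_sep hC h (addr T r x) 0 (addr T r x) (addr T r y) (hvalid x) (hvalid y)
        (hlen x) (hlen y) List.prefix_rfl hxy with ⟨_, _, h3⟩ | h3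
      · rw [hLh] at hLl
        simp only [hP]; rw [h3]; exact hLl
      · rw [hLh] at hLl h3
        simp only [hP]; linarith
    by_cases hpre : addr T r u <+: addr T r v
    · have hpre' : ¬ addr T r v <+: addr T r u := by
        intro h2
        exact haddr (List.IsPrefix.eq_of_length_le hpre h2.length_le)
      have := key v u hpre'
      rw [norm_sub_rev] at this
      linarith
    · have := key u v hpre
      linarith
  · -- minimality
    intro S hS
    unfold totalLength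
    refine Pool.Agent.Helper745.Mst.mst_of_cut T hT (edgeLength φ) ?_ _ S hS rfl
    intro e he
    -- write e = s(u, v) with v the child
    obtain ⟨u, v, rfl, huv, hdv⟩ : ∃ u v, e = s(u, v) ∧ T.Adj u v ∧
        T.dist r v = T.dist r u + 1 := by
      induction e using Sym2.ind with
      | _ a b =>
        rw [mem_edgeSet] at he
        rcases hT.dist_eq_dist_add_one_of_adj r he with h1 | h1
        · exact ⟨b, a, Sym2.eq_swap, he.symm, h1⟩
        · exact ⟨a, b, rfl, he, h1⟩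
    have hav := addr_of_parent hT huv hdv
    refine ⟨{x | addr T r v <+: addr T r x}, ?_, ?_, ?_⟩
    · intro x y hxy hx hy
      simp only [Set.mem_setOf_eq] at hx hy
      rcases hT.dist_eq_dist_add_one_of_adj r hxy with h1 | h1
      · -- x is the child of y
        have hax := addr_of_parent hT hxy.symm h1
        rw [hax] at hx
        rw [List.prefix_concat_iff] at hx
        rcases hx with hx | hx
        · rw [← hax] at hx
          have hvx : v = x := addr_inj hT r hx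
          subst hvx
          have : u = y := parent_unique hT huv hdv hxy.symm h1
          subst this
          exact Sym2.eq_swap
        · exact absurd hx hy
      · exfalso
        have hay := addr_of_parent hT hxy h1
        apply hy
        rw [hay]
        exact hx.trans (List.prefix_append _ _)
    · refine ⟨v, u, Sym2.eq_swap, List.prefix_rfl, ?_⟩
      simp only [Set.mem_setOf_eq]
      intro hc
      have := hc.length_le
      rw [hav, List.length_append, List.length_singleton] at this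
      omega
    · intro x y hx hy
      simp only [Set.mem_setOf_eq] at hx hy
      have e1 : edgeLength φ s(u, v) = gridDist (φ u) (φ v) := rfl
      have e2 : edgeLength φ s(x, y) = gridDist (φ x) (φ y) := rfl
      rw [e1, e2]
      have hstep : ‖P v - P u‖ = L C (0 + (addr T r v).length - 1) := by
        simp only [hP]
        rw [hav, norm_step hC, List.length_append, List.length_singleton]
        congr 1
      rcases cut_sep hC h (addr T r v) 0 (addr T r x) (addr T r y) (hvalid x) (hvalid y)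
        (hlen x) (hlen y) hx hy with ⟨h1, h2, _⟩ | h3
      · have hxv : x = v := addr_inj hT r h1
        have hyu : y = u := by
          apply addr_inj hT r
          rw [h2, hav, List.dropLast_concat]
        rw [hxv, hyu, gridDist_comm]
      · rw [hLh, ← hstep] at h3
        have c1 := hclose u v
        have c2 := hclose x y
        rw [abs_le] at c1 c2
        rw [norm_sub_rev (P v) (P u)] at h3
        have h3' : ‖P u - P v‖ + 1 / 4 * 16 ≤ ‖P x - P y‖ := h3
        linarith [c1.2, c2.1]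
  · -- the grid bounds
    intro v
    have hn := norm_G_le hC (addr T r v) 0
    have hL0 : L C 0 = C := by unfold L; simp
    rw [hL0] at hn
    have hre : |(P v).re| ≤ 16 / 15 * C := (Complex.abs_re_le_norm _).trans hn
    have him : |(P v).im| ≤ 16 / 15 * C := (Complex.abs_im_le_norm _).trans hn
    have bound : ∀ x : ℝ, |x| ≤ 16 / 15 * C →
        1 ≤ ⌊x⌋ + s ∧ ⌊x⌋ + s ≤ ((4 ^ (h ^ 2 + h + 3) : ℕ) : ℤ) := by
      intro x hx
      rw [abs_le] at hx
      have hf1 := Int.floor_le x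
      have hf2 := Int.lt_floor_add_one x
      have hsr : (s : ℝ) = 2 * C + 1 := by rw [hs, hCdef]; push_cast; ring
      constructor
      · have : (1 : ℝ) ≤ ((⌊x⌋ + s : ℤ) : ℝ) := by push_cast; rw [hsr]; linarith
        exact_mod_cast this
      · have h4 : (((4 ^ (h ^ 2 + h + 3) : ℕ) : ℤ) : ℝ) = 4 * C := by
          push_cast; rw [hCdef, pow_succ 4 (h ^ 2 + h + 2)]; ring
        have : ((⌊x⌋ + s : ℤ) : ℝ) ≤ (((4 ^ (h ^ 2 + h + 3) : ℕ) : ℤ) : ℝ) := by
          rw [h4]; push_cast; rw [hsr]; linarith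
        exact_mod_cast this
    exact ⟨(bound _ hre).1, (bound _ hre).2, (bound _ him).1, (bound _ him).2⟩

theorem upper : ∀ c : ℝ, 0 < c → ∃ N : ℕ, ∀ n : ℕ, N ≤ n →
    ∀ T : SimpleGraph (Fin n), T.IsTree → (∀ v, (T.neighborSet v).ncard ≤ 5) →
      ∃ (W H : ℕ) (φ : Fin n → ℤ × ℤ), IsMinWeightDrawing T φ ∧ FitsGrid W H φ ∧
        (W : ℝ) * (H : ℝ) < c * (2 ^ (n ^ 2) * 2 ^ (n ^ 2)) := by
  intro c hc
  obtain ⟨m, hm⟩ := exists_pow_lt_of_lt_one hc (by norm_num : (1 / 2 : ℝ) < 1)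
  refine ⟨m + 6, fun n hn T hT hdeg => ?_⟩
  obtain ⟨φ, h1, h2⟩ := exists_drawing T hT hdeg
  refine ⟨_, _, φ, h1, h2, ?_⟩
  have hexp : 4 * ((n / 2) ^ 2 + n / 2 + 3) ≤ n ^ 2 + 2 * n + 12 := by
    have h3 : 2 * (n / 2) ≤ n := Nat.mul_div_le n 2
    have h3' : (2 * (n / 2)) ^ 2 ≤ n ^ 2 := Nat.pow_le_pow_left h3 2
    rw [mul_pow] at h3'
    omega
  have hbig : n ^ 2 + 2 * n + 12 + m ≤ n ^ 2 + n ^ 2 := by nlinarith
  have hsq : (((4 ^ ((n / 2) ^ 2 + n / 2 + 3) : ℕ) : ℝ)) * ((4 ^ ((n / 2) ^ 2 + n / 2 + 3) : ℕ) : ℝ)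
      = 2 ^ (4 * ((n / 2) ^ 2 + n / 2 + 3)) := by
    push_cast
    rw [← mul_pow, pow_mul]
    norm_num
  rw [hsq, ← pow_add]
  have h4 : (2 : ℝ) ^ (4 * ((n / 2) ^ 2 + n / 2 + 3)) * 2 ^ m ≤ 2 ^ (n ^ 2 + n ^ 2) := by
    rw [← pow_add]
    exact pow_le_pow_right₀ (by norm_num) (by omega)
  have h5 : (1 : ℝ) < c * 2 ^ m := by
    have h6 : (1 / 2 : ℝ) ^ m * 2 ^ m = 1 := by rw [← mul_pow]; norm_num
    have h7 : (0 : ℝ) < 2 ^ m := by positivity
    nlinarith
  have h8 : (0 : ℝ) < 2 ^ (4 * ((n / 2) ^ 2 + n / 2 + 3)) := by positivity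
  have h9 : (0 : ℝ) < 2 ^ m := by positivity
  calc (2 : ℝ) ^ (4 * ((n / 2) ^ 2 + n / 2 + 3))
      < 2 ^ (4 * ((n / 2) ^ 2 + n / 2 + 3)) * (c * 2 ^ m) := by nlinarith
    _ = c * (2 ^ (4 * ((n / 2) ^ 2 + n / 2 + 3)) * 2 ^ m) := by ring
    _ ≤ c * 2 ^ (n ^ 2 + n ^ 2) := mul_le_mul_of_nonneg_left h4 hc.le

end Upper

/-- The area needed by minimum weight grid drawings of trees of maximum degree at most five is
`2 ^ Θ(n ^ 2)` (first part, together with the Monma-Suri upper bound), but the literal bound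
`c * 2 ^ (n ^ 2) * 2 ^ (n ^ 2)` is false for every `c > 0` (second part). -/
theorem result :
    (∃ c : ℝ, 0 < c ∧ ∃ N : ℕ, ∀ n : ℕ, N ≤ n →
      ∃ T : SimpleGraph (Fin n), T.IsTree ∧ (∀ v, (T.neighborSet v).ncard ≤ 5) ∧
        ∀ (W H : ℕ) (φ : Fin n → ℤ × ℤ), IsMinWeightDrawing T φ → FitsGrid W H φ →
          (2 : ℝ) ^ (c * (n : ℝ) ^ 2) ≤ (W : ℝ) * (H : ℝ)) ∧
    (∀ c : ℝ, 0 < c → ∃ N : ℕ, ∀ n : ℕ, N ≤ n →
      ∀ T : SimpleGraph (Fin n), T.IsTree → (∀ v, (T.neighborSet v).ncard ≤ 5) →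
        ∃ (W H : ℕ) (φ : Fin n → ℤ × ℤ), IsMinWeightDrawing T φ ∧ FitsGrid W H φ ∧
          (W : ℝ) * (H : ℝ) < c * (2 ^ (n ^ 2) * 2 ^ (n ^ 2))) :=
  ⟨lower, upper⟩

end Pool.Agent.Results.MP_9afe8f_co.AreaExponent
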