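import Mathlib

set_option autoImplicit false

namespace Pool.Agent.Results.MP_9afe8f_co.Disproof

/-- Euclidean distance between two points of the integer grid. -/
noncomputable def gridDist (p q : ℤ × ℤ) : ℝ :=
  Real.sqrt (((p.1 : ℝ) - q.1) ^ 2 + ((p.2 : ℝ) - q.2) ^ 2)

theorem gridDist_comm (p q : ℤ × ℤ) : gridDist p q = gridDist q p := by
  unfold gridDist; congr 1; ring

/-- Length of the straight edge between the images of two vertices. -/
noncomputable def edgeLength {n : ℕ} (φ : Fin n → ℤ × ℤ) : Sym2 (Fin n) → ℝ :=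
  Sym2.lift ⟨fun a b => gridDist (φ a) (φ b), fun _ _ => gridDist_comm _ _⟩

open Classical in
/-- Sum of the lengths of all edges of a graph whose vertices are placed by φ. -/
noncomputable def totalLength {n : ℕ} (φ : Fin n → ℤ × ℤ) (G : SimpleGraph (Fin n)) : ℝ :=
  ∑ e ∈ G.edgeFinset, edgeLength φ e

/-- φ is injective and T is a minimum spanning tree of the placed points. -/
def IsMinWeightDrawing {n : ℕ} (T : SimpleGraph (Fin n)) (φ : Fin n → ℤ × ℤ) : Prop :=
  Function.Injective φ ∧
    ∀ S : SimpleGraph (Fin n), S.IsTree → totalLength φ T ≤ totalLength φ S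

/-- All vertices lie at points of {1..W} × {1..H}. -/
def FitsGrid {n : ℕ} (W H : ℕ) (φ : Fin n → ℤ × ℤ) : Prop :=
  ∀ v, 1 ≤ (φ v).1 ∧ (φ v).1 ≤ W ∧ 1 ≤ (φ v).2 ∧ (φ v).2 ≤ H

section Mst
open SimpleGraph

variable {V : Type*} [Fintype V] [DecidableEq V]

omit [Fintype V] [DecidableEq V] in
theorem trail_split {S : SimpleGraph V} {u v : V} (p : S.Walk u v) (hp : p.IsTrail)
    (d : S.Dart) (hd : d ∈ p.darts) :
    (S.deleteEdges {d.edge}).Reachable u d.fst ∧ (S.deleteEdges {d.edge}).Reachable d.snd v := by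
  induction p with
  | nil => simp at hd
  | @cons a b c h q ih =>
    rw [Walk.isTrail_cons] at hp
    rw [Walk.darts_cons, List.mem_cons] at hd
    rcases hd with hd | hd
    · subst hd
      refine ⟨Reachable.refl _, ?_⟩
      refine ⟨q.toDeleteEdges _ ?_⟩
      intro e he he2
      simp only [Set.mem_singleton_iff] at he2
      subst he2
      exact hp.2 he
    · obtain ⟨h1, h2⟩ := ih hp.1 hd
      refine ⟨?_, h2⟩
      refine Reachable.trans (Adj.reachable ?_) h1
      rw [deleteEdges_adj]
      refine ⟨h, ?_⟩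
      simp only [Set.mem_singleton_iff]
      intro he
      apply hp.2
      rw [he]
      exact List.mem_map_of_mem hd

/-- Cut criterion for minimum spanning trees. -/
theorem mst_of_cut (T : SimpleGraph V) (hT : T.IsTree) (w : Sym2 V → ℝ)
    (hcut : ∀ e ∈ T.edgeSet, ∃ A : Set V,
      (∀ x y, T.Adj x y → x ∈ A → y ∉ A → s(x, y) = e) ∧
      (∃ a b, e = s(a, b) ∧ a ∈ A ∧ b ∉ A) ∧
      (∀ x y, x ∈ A → y ∉ A → w e ≤ w s(x, y)))
    [Fintype T.edgeSet] :
    ∀ (k : ℕ) (S : SimpleGraph V) [Fintype S.edgeSet], S.IsTree →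
      (T.edgeFinset \ S.edgeFinset).card = k →
      ∑ e ∈ T.edgeFinset, w e ≤ ∑ e ∈ S.edgeFinset, w e := by
  classical
  intro k
  induction k with
  | zero =>
    intro S _ hS hk
    rw [Finset.card_eq_zero, Finset.sdiff_eq_empty_iff_subset] at hk
    have h1 := hT.card_edgeFinset
    have h2 := hS.card_edgeFinset
    have : T.edgeFinset = S.edgeFinset := Finset.eq_of_subset_of_card_le hk (by omega)
    rw [this]
  | succ k ih =>
    intro S _ hS hk
    have hne : (T.edgeFinset \ S.edgeFinset).Nonempty := by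
      rw [← Finset.card_pos]; omega
    obtain ⟨e, he⟩ := hne
    rw [Finset.mem_sdiff, mem_edgeFinset, mem_edgeFinset] at he
    obtain ⟨heT, heS⟩ := he
    obtain ⟨A, hA1, ⟨a, b, hab, haA, hbA⟩, hA3⟩ := hcut e heT
    obtain ⟨p, hp⟩ := hS.connected.exists_isPath a b
    obtain ⟨d, hd, hd1, hd2⟩ := p.exists_boundary_dart A haA hbA
    set f : Sym2 V := d.edge with hf
    have hfS : f ∈ S.edgeSet := d.edge_mem
    have hfe : f ≠ e := by
      intro h; rw [h] at hfS; exact heS hfS
    have hfT : f ∉ T.edgeSet := by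
      intro h
      have hadj : T.Adj d.fst d.snd := by
        rw [← mem_edgeSet]; exact h
      exact hfe (hA1 _ _ hadj hd1 hd2)
    obtain ⟨hr1, hr2⟩ := trail_split p hp.isTrail d hd
    have hne_ab : a ≠ b := by
      intro h; rw [h] at haA; exact hbA haA
    let S' : SimpleGraph V := fromEdgeSet ((S.edgeSet \ {f}) ∪ {e})
    have hle : S.deleteEdges {f} ≤ S' := by
      intro x y hxy
      rw [deleteEdges_adj] at hxy
      rw [fromEdgeSet_adj]
      exact ⟨Or.inl ⟨hxy.1, hxy.2⟩, hxy.1.ne⟩
    have habS' : S'.Adj a b := by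
      rw [fromEdgeSet_adj]
      exact ⟨Or.inr hab.symm, hne_ab⟩
    have hxy' : S'.Reachable d.fst d.snd :=
      ((hr1.mono hle).symm.trans habS'.reachable).trans (hr2.mono hle).symm
    have hstep : ∀ u v, S.Adj u v → S'.Reachable u v := by
      intro u v huv
      by_cases h : s(u, v) = f
      · have h' : s(u, v) = s(d.fst, d.snd) := h
        rw [Sym2.eq_iff] at h'
        rcases h' with ⟨h1, h2⟩ | ⟨h1, h2⟩
        · rw [h1, h2]; exact hxy'
        · rw [h1, h2]; exact hxy'.symm
      · apply Adj.reachable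
        rw [fromEdgeSet_adj]
        exact ⟨Or.inl ⟨huv, h⟩, huv.ne⟩
    have hwalk : ∀ u v, S.Walk u v → S'.Reachable u v := by
      intro u v q
      induction q with
      | nil => exact Reachable.refl _
      | cons h _ ih2 => exact (hstep _ _ h).trans ih2
    have hconn : S'.Connected := by
      have := hS.connected.nonempty
      refine ⟨fun u v => ?_⟩
      obtain ⟨q⟩ := hS.connected u v
      exact hwalk u v q
    have heset : S'.edgeFinset = (S.edgeFinset.erase f) ∪ {e} := by
      ext z
      rw [mem_edgeFinset, edgeSet_fromEdgeSet]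
      simp only [Set.mem_sdiff, Set.mem_union, Set.mem_singleton_iff, Finset.mem_union,
        Finset.mem_erase, mem_edgeFinset, Finset.mem_singleton, Sym2.mem_diagSet]
      constructor
      · rintro ⟨(⟨h1, h2⟩ | h1), _⟩
        · exact Or.inl ⟨h2, h1⟩
        · exact Or.inr h1
      · rintro (⟨h1, h2⟩ | h1)
        · exact ⟨Or.inl ⟨h2, h1⟩, S.not_isDiag_of_mem_edgeSet h2⟩
        · refine ⟨Or.inr h1, ?_⟩
          rw [h1]; exact T.not_isDiag_of_mem_edgeSet heT
    have heS2 : e ∉ S.edgeFinset := by rw [mem_edgeFinset]; exact heS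
    have hfS2 : f ∈ S.edgeFinset := by rw [mem_edgeFinset]; exact hfS
    have hdisj : Disjoint (S.edgeFinset.erase f) {e} := by
      rw [Finset.disjoint_singleton_right]
      intro h
      exact heS2 (Finset.mem_of_mem_erase h)
    have hcard : S'.edgeFinset.card = S.edgeFinset.card := by
      rw [heset, Finset.card_union_of_disjoint hdisj, Finset.card_erase_of_mem hfS2,
        Finset.card_singleton]
      have : 0 < S.edgeFinset.card := Finset.card_pos.mpr ⟨f, hfS2⟩
      omega
    have hS' : S'.IsTree := by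
      rw [isTree_iff_connected_and_card]
      refine ⟨hconn, ?_⟩
      have h1 := hS.card_edgeFinset
      rw [Nat.card_eq_fintype_card, ← edgeFinset_card, Nat.card_eq_fintype_card, hcard, h1]
    have hdiff : T.edgeFinset \ S'.edgeFinset = (T.edgeFinset \ S.edgeFinset).erase e := by
      ext z
      rw [heset]
      simp only [Finset.mem_sdiff, Finset.mem_union, Finset.mem_erase, Finset.mem_singleton,
        mem_edgeFinset]
      constructor
      · rintro ⟨h1, h2⟩
        refine ⟨fun h => h2 (Or.inr h), h1, ?_⟩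
        intro h
        apply h2
        left
        refine ⟨?_, h⟩
        intro h3; rw [h3] at h1; exact hfT h1
      · rintro ⟨h1, h2, h3⟩
        refine ⟨h2, ?_⟩
        rintro (⟨_, h5⟩ | h4)
        · exact h3 h5
        · exact h1 h4
    have hk' : (T.edgeFinset \ S'.edgeFinset).card = k := by
      rw [hdiff, Finset.card_erase_of_mem]
      · omega
      · rw [Finset.mem_sdiff, mem_edgeFinset, mem_edgeFinset]; exact ⟨heT, heS⟩
    have hmain := ih S' hS' hk'
    refine hmain.trans ?_
    rw [heset, Finset.sum_union hdisj, Finset.sum_singleton, ← Finset.add_sum_erase _ _ hfS2]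
    have h5 : w e ≤ w f := hA3 _ _ hd1 hd2
    linarith

end Mst

section Geo
open Complex

/-- length of the edges between level k and level k+1 -/
noncomputable def L (C : ℝ) (k : ℕ) : ℝ := C * (1 / 4) ^ (k * (k + 1))

/-- the direction (relative to the incoming direction) of child number j of a vertex at level k -/
noncomputable def ang (k j : ℕ) : ℝ :=
  if k = 0 then (j : ℝ) * (2 * Real.pi / 5)
  else ((j : ℝ) - 3 / 2) * (Real.pi / 3 + 3 * (1 / 16) ^ (k + 1))

noncomputable def G (C : ℝ) : ℕ → List ℕ → ℂ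
  | _, [] => 0
  | k, j :: t => exp ((ang k j : ℝ) * I) * ((L C k : ℝ) + G C (k + 1) t)

theorem L_pos {C : ℝ} (hC : 0 < C) (k : ℕ) : 0 < L C k := by
  unfold L; positivity

theorem L_succ (C : ℝ) (k : ℕ) : L C (k + 1) = (1 / 16) ^ (k + 1) * L C k := by
  unfold L
  have : (k + 1) * (k + 1 + 1) = k * (k + 1) + 2 * (k + 1) := by ring
  have h2 : ((1 : ℝ) / 4) ^ (2 * (k + 1)) = (1 / 16) ^ (k + 1) := by
    rw [pow_mul]; norm_num
  rw [this, pow_add, h2]
  ring

theorem L_succ_le {C : ℝ} (hC : 0 < C) (k : ℕ) : L C (k + 1) ≤ L C k / 16 := by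
  rw [L_succ, pow_succ]
  have h1 : ((1 : ℝ) / 16) ^ k ≤ 1 := pow_le_one₀ (by norm_num) (by norm_num)
  have h2 := L_pos hC k
  nlinarith

theorem L_anti {C : ℝ} (hC : 0 < C) {i j : ℕ} (h : i ≤ j) : L C j ≤ L C i := by
  induction h with
  | refl => exact le_refl _
  | @step m _ ih =>
    have h1 := L_succ_le hC m
    have h2 := L_pos hC m
    linarith

theorem norm_rot (x : ℝ) (z : ℂ) : ‖exp ((x : ℝ) * I) * z‖ = ‖z‖ := by
  rw [norm_mul, Complex.norm_exp_ofReal_mul_I, one_mul]

theorem norm_G_le {C : ℝ} (hC : 0 < C) (t : List ℕ) : ∀ k, ‖G C k t‖ ≤ 16 / 15 * L C k := by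
  induction t with
  | nil => intro k; simp only [G, norm_zero]; have := L_pos hC k; positivity
  | cons j t ih =>
    intro k
    rw [G, norm_rot]
    have h1 := norm_add_le ((L C k : ℝ) : ℂ) (G C (k + 1) t)
    have h2 := ih (k + 1)
    have h3 := L_succ_le hC k
    have h4 : ‖((L C k : ℝ) : ℂ)‖ = L C k := by
      rw [Complex.norm_real, Real.norm_eq_abs, abs_of_pos (L_pos hC k)]
    linarith

/-- squared distance of two unit vectors -/
theorem norm_sq_exp_sub (x y : ℝ) :
    ‖exp ((x : ℝ) * I) - exp ((y : ℝ) * I)‖ ^ 2 = 2 - 2 * Real.cos (x - y) := by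
  rw [← Complex.normSq_eq_norm_sq, Complex.exp_mul_I, Complex.exp_mul_I, ← Complex.ofReal_cos,
    ← Complex.ofReal_sin, ← Complex.ofReal_cos, ← Complex.ofReal_sin, Complex.normSq_apply]
  simp only [Complex.sub_re, Complex.add_re, Complex.ofReal_re, Complex.mul_re, Complex.ofReal_im,
    Complex.I_re, Complex.I_im, Complex.sub_im, Complex.add_im, Complex.mul_im]
  rw [Real.cos_sub]
  have h1 := Real.sin_sq_add_cos_sq x
  have h2 := Real.sin_sq_add_cos_sq y
  nlinarith

theorem cos_two_pi_div_five : Real.cos (2 * Real.pi / 5) ≤ 0.3091 := by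
  have h : 2 * Real.pi / 5 = 2 * (Real.pi / 5) := by ring
  rw [h, Real.cos_two_mul, Real.cos_pi_div_five]
  have h5 : Real.sqrt 5 ≤ 2.2361 := by
    rw [Real.sqrt_le_left (by norm_num)]; norm_num
  have h5' : 0 ≤ Real.sqrt 5 := Real.sqrt_nonneg 5
  have h6 : Real.sqrt 5 ^ 2 = 5 := Real.sq_sqrt (by norm_num)
  nlinarith

theorem cos_le_of_between {θ x : ℝ} (h0 : 0 ≤ θ) (h1 : θ ≤ x) (h2 : x ≤ 2 * Real.pi - θ) :
    Real.cos x ≤ Real.cos θ := by
  by_cases hx : x ≤ Real.pi
  · exact Real.cos_le_cos_of_nonneg_of_le_pi h0 hx h1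
  · have : Real.cos x = Real.cos (2 * Real.pi - x) := by
      rw [Real.cos_two_pi_sub]
    rw [this]
    apply Real.cos_le_cos_of_nonneg_of_le_pi h0 <;> linarith

/-- if two slots are distinct then the cosine of the difference is small -/
theorem cos_ang_root {j j' : ℕ} (hj : j < 5) (hj' : j' < 5) (hne : j ≠ j') :
    Real.cos (ang 0 j - ang 0 j') ≤ 0.3091 := by
  have key : ∀ a b : ℕ, a < b → b < 5 → Real.cos (ang 0 b - ang 0 a) ≤ 0.3091 := by
    intro a b hab hb
    refine le_trans ?_ cos_two_pi_div_five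
    have hpi := Real.pi_pos
    have e : ang 0 b - ang 0 a = ((b : ℝ) - a) * (2 * Real.pi / 5) := by
      simp only [ang, if_true]; ring
    rw [e]
    have h1 : (1 : ℝ) ≤ (b : ℝ) - a := by
      have : (a : ℝ) + 1 ≤ b := by exact_mod_cast hab
      linarith
    have h2 : (b : ℝ) - a ≤ 4 := by
      have : (b : ℝ) ≤ 4 := by exact_mod_cast Nat.lt_succ_iff.mp hb
      have : (0 : ℝ) ≤ a := by positivity
      linarith
    apply cos_le_of_between (by positivity)
    · nlinarith
    · nlinarith
  rcases lt_or_gt_of_ne hne with h | h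
  · have := key j j' h hj'
    rw [← Real.cos_neg, neg_sub]; exact this
  · exact key j' j h hj

theorem cos_small {δ : ℝ} (h0 : 0 < δ) (h1 : δ ≤ 1 / 64) :
    2 - 2 * Real.cos (Real.pi / 3 + δ) ≥ (1 + 0.8 * δ) ^ 2 := by
  rw [Real.cos_add, Real.cos_pi_div_three, Real.sin_pi_div_three]
  have hc : Real.cos δ ≤ 1 := Real.cos_le_one δ
  have hs' : δ - δ ^ 3 / 6 < Real.sin δ := Real.sin_gt_sub_cube h0
  have h03 : 0 < δ ^ 3 := by positivity
  have hs : δ - δ ^ 3 / 4 < Real.sin δ := by linarith
  have h3 : (1.73 : ℝ) ≤ Real.sqrt 3 := by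
    apply Real.le_sqrt_of_sq_le; norm_num
  have hs0 : 0 < δ - δ ^ 3 / 4 := by nlinarith [sq_nonneg δ]
  have : Real.sqrt 3 * Real.sin δ ≥ 1.73 * (δ - δ ^ 3 / 4) := by
    nlinarith
  nlinarith [sq_nonneg δ, mul_pos h0 h0, mul_pos (mul_pos h0 h0) h0]

theorem cos_ang_succ {k j j' : ℕ} (hk : k ≠ 0) (hj : j < 4) (hj' : j' < 4) (hne : j ≠ j') :
    Real.cos (ang k j - ang k j') ≤ Real.cos (Real.pi / 3 + 3 * (1 / 16) ^ (k + 1)) := by
  have hpi := Real.pi_gt_three
  have hd : ((1 : ℝ) / 16) ^ (k + 1) ≤ 1 / 256 := by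
    have : ((1 : ℝ) / 16) ^ (k + 1) ≤ (1 / 16) ^ 2 :=
      pow_le_pow_of_le_one (by norm_num) (by norm_num) (by omega)
    norm_num at this ⊢; linarith
  have hd0 : 0 < ((1 : ℝ) / 16) ^ (k + 1) := by positivity
  have key : ∀ a b : ℕ, a < b → b < 4 →
      Real.cos (ang k b - ang k a) ≤ Real.cos (Real.pi / 3 + 3 * (1 / 16) ^ (k + 1)) := by
    intro a b hab hb
    have e : ang k b - ang k a = ((b : ℝ) - a) * (Real.pi / 3 + 3 * (1 / 16) ^ (k + 1)) := by
      simp only [ang, if_neg hk]; ring
    rw [e]
    have h1 : (1 : ℝ) ≤ (b : ℝ) - a := by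
      have : (a : ℝ) + 1 ≤ b := by exact_mod_cast hab
      linarith
    have h2 : (b : ℝ) - a ≤ 3 := by
      have : (b : ℝ) ≤ 3 := by exact_mod_cast Nat.lt_succ_iff.mp hb
      have : (0 : ℝ) ≤ a := by positivity
      linarith
    apply cos_le_of_between (by positivity)
    · nlinarith
    · nlinarith
  rcases lt_or_gt_of_ne hne with h | h
  · have := key j j' h hj'
    rw [← Real.cos_neg, neg_sub]; exact this
  · exact key j' j h hj

/-- number of slots available at level k -/
def slots (k : ℕ) : ℕ := if k = 0 then 5 else 4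

theorem unit_sep {k j j' : ℕ} (hj : j < slots k) (hj' : j' < slots k) (hne : j ≠ j') :
    1 + 2.4 * (1 / 16) ^ (k + 1) ≤ ‖exp ((ang k j : ℝ) * I) - exp ((ang k j' : ℝ) * I)‖ := by
  apply le_of_sq_le_sq ?_ (norm_nonneg _)
  rw [norm_sq_exp_sub]
  by_cases hk : k = 0
  · subst hk
    simp only [slots, if_true] at hj hj'
    have := cos_ang_root hj hj' hne
    norm_num
    norm_num at this
    linarith
  · simp only [slots, if_neg hk] at hj hj'
    have h1 := cos_ang_succ hk hj hj' hne
    have hd : ((1 : ℝ) / 16) ^ (k + 1) ≤ 1 / 256 := by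
      have : ((1 : ℝ) / 16) ^ (k + 1) ≤ (1 / 16) ^ 2 :=
        pow_le_pow_of_le_one (by norm_num) (by norm_num) (by omega)
      norm_num at this ⊢; linarith
    have hd0 : 0 < ((1 : ℝ) / 16) ^ (k + 1) := by positivity
    have h2 := cos_small (δ := 3 * (1 / 16) ^ (k + 1)) (by positivity) (by linarith)
    have e : (1 + 2.4 * ((1 : ℝ) / 16) ^ (k + 1)) = 1 + 0.8 * (3 * (1 / 16) ^ (k + 1)) := by ring
    rw [e]
    linarith

/-- Separation of different branches. -/
theorem sep_branch {C : ℝ} (hC : 0 < C) {k j j' : ℕ} (hj : j < slots k) (hj' : j' < slots k)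
    (hne : j ≠ j') (s t : List ℕ) :
    L C k + 1 / 4 * L C (k + 1) ≤ ‖G C k (j :: s) - G C k (j' :: t)‖ := by
  have e : G C k (j :: s) - G C k (j' :: t) =
      (exp ((ang k j : ℝ) * I) - exp ((ang k j' : ℝ) * I)) * (L C k : ℝ) +
      (exp ((ang k j : ℝ) * I) * G C (k + 1) s - exp ((ang k j' : ℝ) * I) * G C (k + 1) t) := by
    simp only [G]; ring
  rw [e]
  set a := (exp ((ang k j : ℝ) * I) - exp ((ang k j' : ℝ) * I)) * ((L C k : ℝ) : ℂ) with ha
  set b := exp ((ang k j : ℝ) * I) * G C (k + 1) s with hb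
  set c := exp ((ang k j' : ℝ) * I) * G C (k + 1) t with hc
  have h1 : ‖a‖ ≥ (1 + 2.4 * (1 / 16) ^ (k + 1)) * L C k := by
    rw [ha, norm_mul, Complex.norm_real, Real.norm_eq_abs, abs_of_pos (L_pos hC k)]
    exact mul_le_mul_of_nonneg_right (unit_sep hj hj' hne) (L_pos hC k).le
  have h2 : ‖b‖ ≤ 16 / 15 * L C (k + 1) := by rw [hb, norm_rot]; exact norm_G_le hC s _
  have h3 : ‖c‖ ≤ 16 / 15 * L C (k + 1) := by rw [hc, norm_rot]; exact norm_G_le hC t _
  have h4 : ‖a‖ ≤ ‖a + (b - c)‖ + ‖b - c‖ := by
    calc ‖a‖ = ‖(a + (b - c)) - (b - c)‖ := by ring_nf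
      _ ≤ _ := norm_sub_le _ _
  have h5 : ‖b - c‖ ≤ ‖b‖ + ‖c‖ := norm_sub_le _ _
  have h6 := L_succ C k
  have h7 := L_pos hC (k + 1)
  have h8 : (1 + 2.4 * (1 / 16) ^ (k + 1)) * L C k = L C k + 2.4 * L C (k + 1) := by
    rw [h6]; ring
  rw [h8] at h1
  norm_num at h1
  linarith

theorem cos_ang_ge {k j : ℕ} (hk : k ≠ 0) (hj : j < 4) :
    -(9 / 2 * (1 / 16) ^ (k + 1)) ≤ Real.cos (ang k j) := by
  have hpi := Real.pi_gt_three
  have hd : ((1 : ℝ) / 16) ^ (k + 1) ≤ 1 / 256 := by
    have : ((1 : ℝ) / 16) ^ (k + 1) ≤ (1 / 16) ^ 2 :=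
      pow_le_pow_of_le_one (by norm_num) (by norm_num) (by omega)
    norm_num at this ⊢; linarith
  have hd0 : 0 < ((1 : ℝ) / 16) ^ (k + 1) := by positivity
  set δ : ℝ := 3 * (1 / 16) ^ (k + 1) with hδ
  have e : ang k j = ((j : ℝ) - 3 / 2) * (Real.pi / 3 + δ) := by
    simp only [ang, if_neg hk, hδ]
  have habs : |ang k j| ≤ Real.pi / 2 + 3 / 2 * δ := by
    rw [e, abs_mul, abs_of_pos (by positivity : 0 < Real.pi / 3 + δ)]
    have : |(j : ℝ) - 3 / 2| ≤ 3 / 2 := by
      rw [abs_le]
      have h1 : (j : ℝ) ≤ 3 := by exact_mod_cast Nat.lt_succ_iff.mp hj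
      have h2 : (0 : ℝ) ≤ j := by positivity
      constructor <;> linarith
    calc |(j : ℝ) - 3 / 2| * (Real.pi / 3 + δ) ≤ 3 / 2 * (Real.pi / 3 + δ) :=
          mul_le_mul_of_nonneg_right this (by positivity)
      _ = _ := by ring
  rw [← Real.cos_abs]
  have h1 : Real.cos (Real.pi / 2 + 3 / 2 * δ) ≤ Real.cos |ang k j| := by
    apply Real.cos_le_cos_of_nonneg_of_le_pi (abs_nonneg _) _ habs
    rw [hδ]; linarith
  have h2 : Real.cos (Real.pi / 2 + 3 / 2 * δ) = - Real.sin (3 / 2 * δ) := by
    rw [add_comm, Real.cos_add_pi_div_two]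
  have h3 : Real.sin (3 / 2 * δ) ≤ 3 / 2 * δ := Real.sin_le (by positivity)
  rw [h2] at h1
  rw [hδ] at h3 h1
  linarith

/-- Separation of a vertex from its proper descendants at depth at least two below. -/
theorem sep_desc {C : ℝ} (hC : 0 < C) {k j j' : ℕ} (hj' : j' < 4) (t : List ℕ) :
    L C k + L C (k + 2) ≤ ‖G C k (j :: j' :: t)‖ := by
  rw [G, norm_rot, G]
  set E := exp ((ang (k + 1) j' : ℝ) * I) with hE
  have e : ((L C k : ℝ) : ℂ) + E * ((L C (k + 1) : ℝ) + G C (k + 1 + 1) t) =
      ((L C k : ℝ) + E * (L C (k + 1) : ℝ)) + E * G C (k + 1 + 1) t := by ring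
  rw [e]
  set a : ℂ := (L C k : ℝ) + E * (L C (k + 1) : ℝ) with ha
  set b : ℂ := E * G C (k + 1 + 1) t with hb
  have h2 : ‖b‖ ≤ 16 / 15 * L C (k + 2) := by rw [hb, hE, norm_rot]; exact norm_G_le hC t _
  have h4 : ‖a‖ ≤ ‖a + b‖ + ‖b‖ := by
    calc ‖a‖ = ‖(a + b) - b‖ := by ring_nf
      _ ≤ _ := norm_sub_le _ _
  have hx := L_pos hC k
  have hy := L_pos hC (k + 1)
  have hz := L_pos hC (k + 2)
  have hxy : L C (k + 1) = (1 / 16) ^ (k + 1) * L C k := L_succ C k
  have hyz : L C (k + 2) = (1 / 16) ^ (k + 2) * L C (k + 1) := L_succ C (k + 1)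
  have hcos := cos_ang_ge (k := k + 1) (j := j') (by omega) hj'
  have h5 : ‖a‖ ^ 2 = L C k ^ 2 + L C (k + 1) ^ 2 +
      2 * L C k * L C (k + 1) * Real.cos (ang (k + 1) j') := by
    rw [← Complex.normSq_eq_norm_sq, ha, hE, Complex.exp_mul_I, ← Complex.ofReal_cos,
      ← Complex.ofReal_sin, Complex.normSq_apply]
    simp only [Complex.add_re, Complex.ofReal_re, Complex.mul_re, Complex.ofReal_im,
      Complex.I_re, Complex.I_im, Complex.add_im, Complex.mul_im]
    have h1 := Real.sin_sq_add_cos_sq (ang (k + 1) j')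
    nlinarith
  have h6 : L C k + 3 * L C (k + 2) ≤ ‖a‖ := by
    apply le_of_sq_le_sq ?_ (norm_nonneg _)
    rw [h5]
    set q : ℝ := (1 / 16) ^ (k + 1) with hq
    have hq0 : 0 < q := by positivity
    have hq1 : q ≤ 1 / 16 := by
      rw [hq, pow_succ]
      have : ((1 : ℝ) / 16) ^ k ≤ 1 := pow_le_one₀ (by norm_num) (by norm_num)
      linarith
    have e2 : ((1 : ℝ) / 16) ^ (k + 2) = q / 16 := by rw [hq, pow_succ]; ring
    have e3 : L C (k + 2) = q ^ 2 / 16 * L C k := by rw [hyz, e2, hxy]; ring
    have e4 : ((1 : ℝ) / 16) ^ (k + 1 + 1) = q / 16 := e2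
    rw [e4] at hcos
    rw [e3, hxy]
    have hq2 : q ^ 2 ≤ 1 / 256 := by nlinarith
    have hx2 : 0 < L C k ^ 2 := by positivity
    have hmul : 2 * L C k * (q * L C k) * Real.cos (ang (k + 1) j') ≥
        2 * L C k * (q * L C k) * (-(9 / 2 * (q / 16))) :=
      mul_le_mul_of_nonneg_left hcos (by positivity)
    have key : (L C k + 3 * (q ^ 2 / 16 * L C k)) ^ 2 ≤
        L C k ^ 2 + (q * L C k) ^ 2 + 2 * L C k * (q * L C k) * (-(9 / 2 * (q / 16))) := by
      have : L C k ^ 2 + (q * L C k) ^ 2 + 2 * L C k * (q * L C k) * (-(9 / 2 * (q / 16)))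
          - (L C k + 3 * (q ^ 2 / 16 * L C k)) ^ 2
          = L C k ^ 2 * (q ^ 2 * (1 / 16 - 9 / 256 * q ^ 2)) := by ring
      have h9 : 0 ≤ L C k ^ 2 * (q ^ 2 * (1 / 16 - 9 / 256 * q ^ 2)) := by
        apply mul_nonneg hx2.le
        apply mul_nonneg (by positivity)
        nlinarith
      linarith
    linarith
  linarith

/-- admissible addresses starting at level k -/
def Valid : ℕ → List ℕ → Prop
  | _, [] => True
  | k, j :: t => j < slots k ∧ Valid (k + 1) t

/-- the cut inequality for addresses -/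
theorem cut_sep {C : ℝ} (hC : 0 < C) (h : ℕ) :
    ∀ (w : List ℕ) (k : ℕ) (a b : List ℕ), Valid k a → Valid k b →
      k + a.length ≤ h → k + b.length ≤ h →
      w <+: a → ¬ w <+: b →
      (a = w ∧ b = w.dropLast ∧ ‖G C k a - G C k b‖ = L C (k + w.length - 1)) ∨
      L C (k + w.length - 1) + 1 / 4 * L C h ≤ ‖G C k a - G C k b‖ := by
  intro w
  induction w with
  | nil => intro k a b _ _ _ _ _ hb; exact absurd (List.nil_prefix) hb
  | cons j w ih =>
    intro k a b hva hvb hla hlb hwa hwb
    have hlen : k + (j :: w).length - 1 = k + w.length := by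
      simp only [List.length_cons]; omega
    rw [hlen]
    obtain ⟨a', rfl⟩ := hwa
    rw [List.cons_append] at hva hla ⊢
    have hLk : L C (k + w.length) ≤ L C k := L_anti hC (by omega)
    cases b with
    | nil =>
      cases w with
      | nil =>
        cases a' with
        | nil =>
          left
          refine ⟨by simp, by simp, ?_⟩
          simp only [List.nil_append, List.length_nil, Nat.add_zero]
          rw [G, G, sub_zero, norm_rot]
          simp only [G, add_zero]
          rw [Complex.norm_real, Real.norm_eq_abs, abs_of_pos (L_pos hC k)]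
        | cons j' a'' =>
          right
          simp only [List.nil_append] at hva hla ⊢
          have h1 := sep_desc (C := C) hC (k := k) (j := j) (j' := j')
            (by have := hva.2.1; simpa [slots] using this) a''
          simp only [List.length_cons] at hla
          have h2 : L C h ≤ L C (k + 2) := L_anti hC (by omega)
          have h3 := L_pos hC h
          have e : G C k [] = 0 := rfl
          rw [e, sub_zero]
          linarith
      | cons j' w' =>
        right
        simp only [List.cons_append] at hva hla ⊢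
        have h1 := sep_desc (C := C) hC (k := k) (j := j) (j' := j')
          (by have := hva.2.1; simpa [slots] using this) (w' ++ a')
        simp only [List.length_cons] at hla
        have h2 : L C h ≤ L C (k + 2) := L_anti hC (by omega)
        have h3 := L_pos hC h
        have e : G C k [] = 0 := rfl
        rw [e, sub_zero]
        linarith
    | cons j2 b' =>
      by_cases hj : j = j2
      · subst hj
        have hwb' : ¬ w <+: b' := by
          intro h; apply hwb; exact (List.cons_prefix_cons).mpr ⟨rfl, h⟩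
        have hlb' : k + 1 + b'.length ≤ h := by
          simp only [List.length_cons] at hlb; omega
        have hla' : k + 1 + (w ++ a').length ≤ h := by
          simp only [List.length_cons] at hla; omega
        have hw0 : w ≠ [] := by
          intro h; rw [h] at hwb'; exact hwb' List.nil_prefix
        have hwl : 0 < w.length := List.length_pos_iff.mpr hw0
        have e : ‖G C k (j :: (w ++ a')) - G C k (j :: b')‖ =
            ‖G C (k + 1) (w ++ a') - G C (k + 1) b'‖ := by
          have : G C k (j :: (w ++ a')) - G C k (j :: b') =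
              exp ((ang k j : ℝ) * I) * (G C (k + 1) (w ++ a') - G C (k + 1) b') := by
            simp only [G]; ring
          rw [this, norm_rot]
        rw [e]
        have e2 : k + 1 + w.length - 1 = k + w.length := by omega
        rcases ih (k + 1) (w ++ a') b' hva.2 hvb.2 hla' hlb' (List.prefix_append _ _) hwb' with
          ⟨h1, h2, h3⟩ | h1
        · left
          refine ⟨by rw [h1], ?_, by rw [h3, e2]⟩
          rw [h2, List.dropLast_cons_of_ne_nil hw0]
        · right
          rw [e2] at h1
          exact h1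
      · right
        have h1 := sep_branch hC (k := k) hva.1 hvb.1 hj (w ++ a') b'
        simp only [List.length_cons] at hla
        have h2 : L C h ≤ L C (k + 1) := L_anti hC (by omega)
        have h3 := L_pos hC h
        linarith

end Geo

section Addr
open SimpleGraph

variable {n : ℕ}

theorem exists_parent {T : SimpleGraph (Fin n)} (hT : T.IsTree) {r v : Fin n} (hv : v ≠ r) :
    ∃ u, T.Adj u v ∧ T.dist r v = T.dist r u + 1 := by
  obtain ⟨p, hp⟩ := (hT.connected r v).exists_walk_length_eq_dist
  have hnn : ¬ p.Nil := by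
    intro h; exact hv h.eq.symm
  refine ⟨p.penultimate, p.adj_penultimate hnn, ?_⟩
  have h1 : T.dist r p.penultimate ≤ p.dropLast.length := dist_le _
  have h2 : p.dropLast.length + 1 = p.length := Walk.length_dropLast_add_one hnn
  rcases hT.dist_eq_dist_add_one_of_adj r (p.adj_penultimate hnn) with h3 | h3
  · omega
  · exact h3

theorem parent_unique {T : SimpleGraph (Fin n)} (hT : T.IsTree) {r v u u' : Fin n}
    (h1 : T.Adj u v) (h2 : T.dist r v = T.dist r u + 1)
    (h1' : T.Adj u' v) (h2' : T.dist r v = T.dist r u' + 1) : u = u' := by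
  obtain ⟨p, hp, hpl⟩ := (hT.connected r u).exists_path_of_dist
  obtain ⟨q, hq, hql⟩ := (hT.connected r u').exists_path_of_dist
  have hvp : v ∉ p.support := by
    intro h
    have := T.dist_le (p.takeUntil v h)
    have h3 := p.length_takeUntil_le_length h
    omega
  have hvq : v ∉ q.support := by
    intro h
    have := T.dist_le (q.takeUntil v h)
    have h3 := q.length_takeUntil_le_length h
    omega
  have hp' : (p.concat h1).IsPath := hp.concat hvp h1
  have hq' : (q.concat h1').IsPath := hq.concat hvq h1'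
  have heq := (hT.existsUnique_path r v).unique hp' hq'
  have := congrArg Walk.penultimate heq
  simpa using this

open Classical in
noncomputable def par (T : SimpleGraph (Fin n)) (r v : Fin n) : Fin n :=
  if h : ∃ u, T.Adj u v ∧ T.dist r v = T.dist r u + 1 then h.choose else v

theorem par_spec {T : SimpleGraph (Fin n)} (hT : T.IsTree) {r v : Fin n} (hv : v ≠ r) :
    T.Adj (par T r v) v ∧ T.dist r v = T.dist r (par T r v) + 1 := by
  have h := exists_parent hT hv
  unfold par
  rw [dif_pos h]
  exact h.choose_spec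

theorem par_eq {T : SimpleGraph (Fin n)} (hT : T.IsTree) {r u v : Fin n}
    (h1 : T.Adj u v) (h2 : T.dist r v = T.dist r u + 1) : par T r v = u := by
  have hv : v ≠ r := by
    intro h; subst h
    rw [dist_self] at h2; omega
  obtain ⟨h3, h4⟩ := par_spec hT hv
  exact parent_unique hT h3 h4 h1 h2

open Classical in
noncomputable def kids (T : SimpleGraph (Fin n)) (r u : Fin n) : Finset (Fin n) :=
  Finset.univ.filter (fun v => T.Adj u v ∧ T.dist r v = T.dist r u + 1)

theorem mem_kids {T : SimpleGraph (Fin n)} {r u v : Fin n} :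
    v ∈ kids T r u ↔ T.Adj u v ∧ T.dist r v = T.dist r u + 1 := by
  simp [kids]

theorem mem_kids_par {T : SimpleGraph (Fin n)} (hT : T.IsTree) {r v : Fin n} (hv : v ≠ r) :
    v ∈ kids T r (par T r v) := by
  rw [mem_kids]; exact par_spec hT hv

noncomputable def slot (T : SimpleGraph (Fin n)) (r v : Fin n) : ℕ :=
  ((kids T r (par T r v)).filter (· < v)).card

theorem slot_lt {T : SimpleGraph (Fin n)} {r v : Fin n}
    (hv : v ∈ kids T r (par T r v)) : slot T r v < (kids T r (par T r v)).card := by
  unfold slot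
  apply Finset.card_lt_card
  rw [Finset.filter_ssubset]
  exact ⟨v, hv, lt_irrefl v⟩

theorem slot_inj {T : SimpleGraph (Fin n)} {r v v' : Fin n}
    (hv : v ∈ kids T r (par T r v)) (hv' : v' ∈ kids T r (par T r v'))
    (hp : par T r v = par T r v') (hs : slot T r v = slot T r v') : v = v' := by
  by_contra hne
  have key : ∀ a b : Fin n, a ∈ kids T r (par T r a) → par T r a = par T r b → a < b →
      slot T r a < slot T r b := by
    intro a b ha hab hlt
    unfold slot
    apply Finset.card_lt_card
    rw [← hab]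
    rw [Finset.ssubset_iff_of_subset]
    · refine ⟨a, ?_, ?_⟩
      · rw [Finset.mem_filter]; exact ⟨ha, hlt⟩
      · rw [Finset.mem_filter]; intro h; exact lt_irrefl _ h.2
    · intro z hz
      rw [Finset.mem_filter] at hz ⊢
      exact ⟨hz.1, hz.2.trans hlt⟩
  rcases lt_or_gt_of_ne hne with h | h
  · have := key v v' hv hp h; omega
  · have := key v' v hv' hp.symm h; omega

theorem kids_card {T : SimpleGraph (Fin n)} (hT : T.IsTree)
    (hdeg : ∀ v, (T.neighborSet v).ncard ≤ 5) (r u : Fin n) :
    (kids T r u).card ≤ slots (T.dist r u) := by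
  classical
  have h5 : (kids T r u).card ≤ (T.neighborSet u).ncard := by
    rw [← Set.ncard_coe_finset]
    apply Set.ncard_le_ncard
    · intro v hv
      rw [Finset.mem_coe, mem_kids] at hv
      exact hv.1
    · exact Set.toFinite _
  by_cases hu : u = r
  · subst hu
    rw [dist_self]
    simp only [slots, if_true]
    exact h5.trans (hdeg u)
  · obtain ⟨h1, h2⟩ := par_spec hT hu
    have hd : T.dist r u ≠ 0 := by omega
    simp only [slots, if_neg hd]
    have hnot : par T r u ∉ kids T r u := by
      rw [mem_kids]; intro h; omega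
    have h6 : (insert (par T r u) (kids T r u)).card ≤ (T.neighborSet u).ncard := by
      rw [← Set.ncard_coe_finset]
      apply Set.ncard_le_ncard
      · intro v hv
        rw [Finset.mem_coe, Finset.mem_insert, mem_kids] at hv
        rcases hv with hv | hv
        · rw [hv]; exact h1.symm
        · exact hv.1
      · exact Set.toFinite _
    rw [Finset.card_insert_of_notMem hnot] at h6
    have := hdeg u
    omega

noncomputable def addrAux (T : SimpleGraph (Fin n)) (r : Fin n) : ℕ → Fin n → List ℕ
  | 0, _ => []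
  | k + 1, v => addrAux T r k (par T r v) ++ [slot T r v]

noncomputable def addr (T : SimpleGraph (Fin n)) (r v : Fin n) : List ℕ :=
  addrAux T r (T.dist r v) v

theorem length_addrAux (T : SimpleGraph (Fin n)) (r : Fin n) :
    ∀ (k : ℕ) (v : Fin n), (addrAux T r k v).length = k := by
  intro k
  induction k with
  | zero => intro v; rfl
  | succ k ih => intro v; simp [addrAux, ih]

theorem length_addr (T : SimpleGraph (Fin n)) (r v : Fin n) :
    (addr T r v).length = T.dist r v := length_addrAux _ _ _ _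

theorem addr_root (T : SimpleGraph (Fin n)) (r : Fin n) : addr T r r = [] := by
  simp [addr, addrAux]

theorem addr_of_parent {T : SimpleGraph (Fin n)} (hT : T.IsTree) {r u v : Fin n}
    (h1 : T.Adj u v) (h2 : T.dist r v = T.dist r u + 1) :
    addr T r v = addr T r u ++ [slot T r v] := by
  unfold addr
  rw [h2, addrAux, par_eq hT h1 h2]

theorem addr_inj {T : SimpleGraph (Fin n)} (hT : T.IsTree) (r : Fin n) :
    Function.Injective (addr T r) := by
  have key : ∀ k : ℕ, ∀ u v : Fin n, T.dist r u = k → T.dist r v = k →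
      addrAux T r k u = addrAux T r k v → u = v := by
    intro k
    induction k with
    | zero =>
      intro u v hu hv _
      rw [hT.connected.dist_eq_zero_iff] at hu hv
      rw [← hu, ← hv]
    | succ k ih =>
      intro u v hu hv h
      have hur : u ≠ r := by intro h; rw [h, dist_self] at hu; omega
      have hvr : v ≠ r := by intro h; rw [h, dist_self] at hv; omega
      rw [addrAux, addrAux] at h
      have h' := List.append_inj' h rfl
      obtain ⟨h1, h2⟩ := par_spec hT hur
      obtain ⟨h3, h4⟩ := par_spec hT hvr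
      have hp := ih (par T r u) (par T r v) (by omega) (by omega) h'.1
      have hs : slot T r u = slot T r v := by simpa using h'.2
      exact slot_inj (mem_kids_par hT hur) (mem_kids_par hT hvr) hp hs
  intro u v h
  have hl := congrArg List.length h
  rw [length_addr, length_addr] at hl
  unfold addr at h
  rw [hl] at h
  exact key _ u v hl rfl h

theorem valid_append_singleton (a : List ℕ) (s : ℕ) : ∀ k : ℕ,
    Valid k (a ++ [s]) ↔ Valid k a ∧ s < slots (k + a.length) := by
  induction a with
  | nil => intro k; simp [Valid]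
  | cons j a ih =>
    intro k
    simp only [List.cons_append, Valid, ih, List.length_cons]
    have : k + 1 + a.length = k + (a.length + 1) := by omega
    rw [this]
    tauto

theorem valid_addr {T : SimpleGraph (Fin n)} (hT : T.IsTree)
    (hdeg : ∀ v, (T.neighborSet v).ncard ≤ 5) (r : Fin n) :
    ∀ v, Valid 0 (addr T r v) := by
  have key : ∀ k : ℕ, ∀ v : Fin n, T.dist r v = k → Valid 0 (addrAux T r k v) := by
    intro k
    induction k with
    | zero => intro v _; trivial
    | succ k ih =>
      intro v hv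
      have hvr : v ≠ r := by intro h; rw [h, dist_self] at hv; omega
      obtain ⟨h1, h2⟩ := par_spec hT hvr
      rw [addrAux, valid_append_singleton, length_addrAux, Nat.zero_add]
      refine ⟨ih _ (by omega), ?_⟩
      have h3 := slot_lt (mem_kids_par hT hvr)
      have h4 := kids_card hT hdeg r (par T r v)
      have h5 : T.dist r (par T r v) = k := by omega
      rw [h5] at h4
      omega
  intro v
  exact key _ v rfl

/-- Every tree has a vertex of eccentricity at most half the number of vertices. -/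
theorem exists_centre {T : SimpleGraph (Fin n)} (hT : T.IsTree) :
    ∃ r, ∀ v, 2 * T.dist r v ≤ n := by
  classical
  have hne : (Finset.univ : Finset (Fin n)).Nonempty := by
    obtain ⟨v⟩ := hT.connected.nonempty
    exact ⟨v, Finset.mem_univ _⟩
  let ecc : Fin n → ℕ := fun r => Finset.univ.sup (fun v => T.dist r v)
  have hecc : ∀ r v, T.dist r v ≤ ecc r := fun r v =>
    Finset.le_sup (f := fun v => T.dist r v) (Finset.mem_univ v)
  obtain ⟨r, _, hr⟩ := Finset.exists_min_image Finset.univ ecc hne
  refine ⟨r, ?_⟩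
  have hR : 2 * ecc r ≤ n := by
    by_cases h0 : ecc r = 0
    · omega
    obtain ⟨x, _, hx⟩ := Finset.exists_mem_eq_sup Finset.univ hne (fun v => T.dist r v)
    have hx' : T.dist r x = ecc r := hx.symm
    have hxr : r ≠ x := by
      intro h; rw [← h, dist_self] at hx'; exact h0 hx'.symm
    obtain ⟨r', hr'1, hr'2⟩ := exists_parent hT (r := x) (v := r) hxr
    have hmin := hr r' (Finset.mem_univ _)
    obtain ⟨y, _, hy⟩ := Finset.exists_mem_eq_sup Finset.univ hne (fun v => T.dist r' v)
    have hy' : T.dist r' y = ecc r' := hy.symm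
    have hrx : T.dist x r = ecc r := by rw [dist_comm]; exact hx'
    -- two disjoint sets
    let A : Finset (Fin n) := Finset.univ.filter (fun v => T.dist v r' = T.dist v r + 1)
    let B : Finset (Fin n) := Finset.univ.filter (fun v => T.dist v r = T.dist v r' + 1)
    have hdisj : Disjoint A B := by
      rw [Finset.disjoint_filter]
      intro v _ h1 h2; omega
    have hcardle : A.card + B.card ≤ n := by
      rw [← Finset.card_union_of_disjoint hdisj]
      exact (Finset.card_le_univ _).trans (by simp)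
    have side : ∀ (a b z : Fin n), T.Adj a b → T.dist z b = T.dist z a + 1 →
        T.dist a z + 1 ≤
          (Finset.univ.filter (fun v => T.dist v b = T.dist v a + 1)).card := by
      intro a b z hab hz
      obtain ⟨p, hp⟩ := (hT.connected a z).exists_walk_length_eq_dist
      have hgv : ∀ i ≤ p.length, T.dist a (p.getVert i) = i ∧
          T.dist (p.getVert i) b = T.dist (p.getVert i) a + 1 := by
        intro i hi
        have e1 : T.dist a (p.getVert i) ≤ i := by
          have := T.dist_le (p.take i)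
          rw [Walk.take_length] at this
          omega
        have e2 : T.dist (p.getVert i) z ≤ p.length - i := by
          have := T.dist_le (p.drop i)
          rw [Walk.drop_length] at this
          exact this
        have e3 := hT.connected.dist_triangle (u := a) (v := p.getVert i) (w := z)
        have e4 : T.dist a (p.getVert i) = i := by omega
        refine ⟨e4, ?_⟩
        have e5 := hT.connected.dist_triangle (u := b) (v := p.getVert i) (w := z)
        have e6 : T.dist b z = T.dist a z + 1 := by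
          rw [dist_comm, hz, dist_comm]
        rcases hT.dist_eq_dist_add_one_of_adj (p.getVert i) hab with h | h
        · exfalso
          rw [dist_comm (u := p.getVert i) (v := a), dist_comm (u := p.getVert i) (v := b)] at h
          omega
        · exact h
      have hinj : Set.InjOn (fun i => p.getVert i) (Finset.range (p.length + 1) : Set ℕ) := by
        intro i hi j hj hij
        simp only [Finset.coe_range, Set.mem_Iio] at hi hj
        have h1 := (hgv i (by omega)).1
        have h2 := (hgv j (by omega)).1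
        simp only at hij
        rw [hij] at h1
        omega
      have : (Finset.range (p.length + 1)).card ≤
          (Finset.univ.filter (fun v => T.dist v b = T.dist v a + 1)).card := by
        apply Finset.card_le_card_of_injOn (fun i => p.getVert i) _ hinj
        intro i hi
        simp only [Finset.coe_range, Set.mem_Iio] at hi
        simp only [Finset.coe_filter, Finset.mem_univ, true_and, Set.mem_ofPred_eq]
        exact (hgv i (by omega)).2
      rw [Finset.card_range, hp] at this
      exact this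
    have hB := side r' r x hr'1 hr'2
    have hyA : T.dist y r' = T.dist y r + 1 := by
      rcases hT.dist_eq_dist_add_one_of_adj y hr'1 with h | h
      · exact h
      · exfalso
        have := hecc r y
        rw [dist_comm] at this
        rw [dist_comm (u := r') (v := y)] at hy'
        omega
    have hA := side r r' y hr'1.symm hyA
    have e1 : T.dist r' x + 1 = ecc r := by
      rw [dist_comm]; omega
    have e2 : T.dist r y + 1 ≥ ecc r := by
      rw [dist_comm (u := r') (v := y)] at hy'
      rw [dist_comm]; omega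
    have hA' : T.dist r y + 1 ≤ A.card := hA
    have hB' : T.dist r' x + 1 ≤ B.card := hB
    omega
  intro v
  have := hecc r v
  omega

end Addr

section Draw
open SimpleGraph

theorem round_close (s : ℤ) (z w : ℂ) :
    |gridDist (⌊z.re⌋ + s, ⌊z.im⌋ + s) (⌊w.re⌋ + s, ⌊w.im⌋ + s) - ‖z - w‖| ≤ 2 := by
  set d : ℂ := ⟨(⌊z.re⌋ : ℝ) - ⌊w.re⌋, (⌊z.im⌋ : ℝ) - ⌊w.im⌋⟩ with hd
  have h1 : gridDist (⌊z.re⌋ + s, ⌊z.im⌋ + s) (⌊w.re⌋ + s, ⌊w.im⌋ + s) = ‖d‖ := by
    unfold gridDist
    rw [Complex.norm_def, Complex.normSq_apply]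
    congr 1
    simp only [hd]
    push_cast
    ring
  rw [h1]
  refine (abs_norm_sub_norm_le _ _).trans ?_
  refine (Complex.norm_le_abs_re_add_abs_im _).trans ?_
  have hz1 := Int.floor_le z.re
  have hz2 := Int.lt_floor_add_one z.re
  have hz3 := Int.floor_le z.im
  have hz4 := Int.lt_floor_add_one z.im
  have hw1 := Int.floor_le w.re
  have hw2 := Int.lt_floor_add_one w.re
  have hw3 := Int.floor_le w.im
  have hw4 := Int.lt_floor_add_one w.im
  have h2 : |(d - (z - w)).re| ≤ 1 := by
    simp only [Complex.sub_re, hd]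
    rw [abs_le]; constructor <;> linarith
  have h3 : |(d - (z - w)).im| ≤ 1 := by
    simp only [Complex.sub_im, hd]
    rw [abs_le]; constructor <;> linarith
  linarith

theorem norm_step {C : ℝ} (hC : 0 < C) (s : ℕ) (a : List ℕ) : ∀ k : ℕ,
    ‖G C k (a ++ [s]) - G C k a‖ = L C (k + a.length) := by
  induction a with
  | nil =>
    intro k
    simp only [List.nil_append, List.length_nil, Nat.add_zero]
    rw [G, G, sub_zero, norm_rot]
    simp only [G, add_zero]
    rw [Complex.norm_real, Real.norm_eq_abs, abs_of_pos (L_pos hC k)]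
  | cons j a ih =>
    intro k
    have : G C k (j :: a ++ [s]) - G C k (j :: a) =
        Complex.exp ((ang k j : ℝ) * Complex.I) * (G C (k + 1) (a ++ [s]) - G C (k + 1) a) := by
      simp only [List.cons_append, G]; ring
    rw [this, norm_rot, ih (k + 1), List.length_cons]
    congr 1
    omega

/-- Every tree of maximum degree at most five has a minimum weight drawing on a square grid of
side length `4 ^ (h ^ 2 + h + 3)` where `h = n / 2`. -/
theorem exists_drawing {n : ℕ} (T : SimpleGraph (Fin n)) (hT : T.IsTree)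
    (hdeg : ∀ v, (T.neighborSet v).ncard ≤ 5) :
    ∃ φ : Fin n → ℤ × ℤ, IsMinWeightDrawing T φ ∧
      FitsGrid (4 ^ ((n / 2) ^ 2 + n / 2 + 3)) (4 ^ ((n / 2) ^ 2 + n / 2 + 3)) φ := by
  classical
  obtain ⟨r, hr⟩ := exists_centre hT
  set h := n / 2 with hh
  have hdist : ∀ v, T.dist r v ≤ h := by
    intro v
    have := hr v
    omega
  set C : ℝ := 4 ^ (h ^ 2 + h + 2) with hCdef
  have hC : 0 < C := by positivity
  have hC16 : 16 ≤ C := by
    have : (4 : ℝ) ^ 2 ≤ 4 ^ (h ^ 2 + h + 2) := pow_le_pow_right₀ (by norm_num) (by omega)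
    norm_num at this
    rw [hCdef]; exact this
  have hLh : L C h = 16 := by
    unfold L
    rw [hCdef, show h * (h + 1) = h ^ 2 + h by ring, pow_add (4 : ℝ) (h ^ 2 + h) 2,
      one_div, inv_pow]
    field_simp
    norm_num
  set P : Fin n → ℂ := fun v => G C 0 (addr T r v) with hP
  set s : ℤ := 2 * 4 ^ (h ^ 2 + h + 2) + 1 with hs
  set φ : Fin n → ℤ × ℤ := fun v => (⌊(P v).re⌋ + s, ⌊(P v).im⌋ + s) with hφ
  have hclose : ∀ u v, |gridDist (φ u) (φ v) - ‖P u - P v‖| ≤ 2 := fun u v => round_close s _ _
  have hvalid := valid_addr hT hdeg r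
  have hlen : ∀ v, 0 + (addr T r v).length ≤ h := by
    intro v; rw [length_addr, Nat.zero_add]; exact hdist v
  refine ⟨φ, ⟨?_, ?_⟩, ?_⟩
  · -- injectivity
    intro u v huv
    by_contra hne
    have haddr : addr T r u ≠ addr T r v := fun hc => hne (addr_inj hT r hc)
    have hd0 : gridDist (φ u) (φ v) = 0 := by
      rw [huv]; unfold gridDist; simp
    have hcl := hclose u v
    rw [hd0, zero_sub, abs_neg, abs_of_nonneg (norm_nonneg _)] at hcl
    have key : ∀ x y, ¬ addr T r x <+: addr T r y → 16 ≤ ‖P x - P y‖ := by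
      intro x y hxy
      have hl : 0 + (addr T r x).length - 1 ≤ h := by have := hlen x; omega
      have hLl := L_anti hC hl
      rcases cut_sep hC h (addr T r x) 0 (addr T r x) (addr T r y) (hvalid x) (hvalid y)
        (hlen x) (hlen y) List.prefix_rfl hxy with ⟨_, _, h3⟩ | h3
      · rw [hLh] at hLl
        simp only [hP]; rw [h3]; exact hLl
      · rw [hLh] at hLl h3
        simp only [hP]; linarith
    by_cases hpre : addr T r u <+: addr T r v
    · have hpre' : ¬ addr T r v <+: addr T r u := by
        intro h2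
        exact haddr (List.IsPrefix.eq_of_length_le hpre h2.length_le)
      have := key v u hpre'
      rw [norm_sub_rev] at this
      linarith
    · have := key u v hpre
      linarith
  · -- minimality
    intro S hS
    unfold totalLength
    refine mst_of_cut T hT (edgeLength φ) ?_ _ S hS rfl
    intro e he
    -- write e = s(u, v) with v the child
    obtain ⟨u, v, rfl, huv, hdv⟩ : ∃ u v, e = s(u, v) ∧ T.Adj u v ∧
        T.dist r v = T.dist r u + 1 := by
      induction e using Sym2.ind with
      | _ a b =>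
        rw [mem_edgeSet] at he
        rcases hT.dist_eq_dist_add_one_of_adj r he with h1 | h1
        · exact ⟨b, a, Sym2.eq_swap, he.symm, h1⟩
        · exact ⟨a, b, rfl, he, h1⟩
    have hav := addr_of_parent hT huv hdv
    refine ⟨{x | addr T r v <+: addr T r x}, ?_, ?_, ?_⟩
    · intro x y hxy hx hy
      simp only [Set.mem_ofPred_eq] at hx hy
      rcases hT.dist_eq_dist_add_one_of_adj r hxy with h1 | h1
      · -- x is the child of y
        have hax := addr_of_parent hT hxy.symm h1
        rw [hax] at hx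
        rw [List.prefix_concat_iff] at hx
        rcases hx with hx | hx
        · rw [← hax] at hx
          have hvx : v = x := addr_inj hT r hx
          subst hvx
          have : u = y := parent_unique hT huv hdv hxy.symm h1
          subst this
          exact Sym2.eq_swap
        · exact absurd hx hy
      · exfalso
        have hay := addr_of_parent hT hxy h1
        apply hy
        rw [hay]
        exact hx.trans (List.prefix_append _ _)
    · refine ⟨v, u, Sym2.eq_swap, List.prefix_rfl, ?_⟩
      simp only [Set.mem_ofPred_eq]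
      intro hc
      have := hc.length_le
      rw [hav, List.length_append, List.length_singleton] at this
      omega
    · intro x y hx hy
      simp only [Set.mem_ofPred_eq] at hx hy
      have e1 : edgeLength φ s(u, v) = gridDist (φ u) (φ v) := rfl
      have e2 : edgeLength φ s(x, y) = gridDist (φ x) (φ y) := rfl
      rw [e1, e2]
      have hstep : ‖P v - P u‖ = L C (0 + (addr T r v).length - 1) := by
        simp only [hP]
        rw [hav, norm_step hC, List.length_append, List.length_singleton]
        congr 1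
      rcases cut_sep hC h (addr T r v) 0 (addr T r x) (addr T r y) (hvalid x) (hvalid y)
        (hlen x) (hlen y) hx hy with ⟨h1, h2, _⟩ | h3
      · have hxv : x = v := addr_inj hT r h1
        have hyu : y = u := by
          apply addr_inj hT r
          rw [h2, hav, List.dropLast_concat]
        rw [hxv, hyu, gridDist_comm]
      · rw [hLh, ← hstep] at h3
        have c1 := hclose u v
        have c2 := hclose x y
        rw [abs_le] at c1 c2
        rw [norm_sub_rev (P v) (P u)] at h3
        have h3' : ‖P u - P v‖ + 1 / 4 * 16 ≤ ‖P x - P y‖ := h3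
        linarith [c1.2, c2.1]
  · -- the grid bounds
    intro v
    have hn := norm_G_le hC (addr T r v) 0
    have hL0 : L C 0 = C := by unfold L; simp
    rw [hL0] at hn
    have hre : |(P v).re| ≤ 16 / 15 * C := (Complex.abs_re_le_norm _).trans hn
    have him : |(P v).im| ≤ 16 / 15 * C := (Complex.abs_im_le_norm _).trans hn
    have bound : ∀ x : ℝ, |x| ≤ 16 / 15 * C →
        1 ≤ ⌊x⌋ + s ∧ ⌊x⌋ + s ≤ ((4 ^ (h ^ 2 + h + 3) : ℕ) : ℤ) := by
      intro x hx
      rw [abs_le] at hx
      have hf1 := Int.floor_le x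
      have hf2 := Int.lt_floor_add_one x
      have hsr : (s : ℝ) = 2 * C + 1 := by rw [hs, hCdef]; push_cast; ring
      constructor
      · have : (1 : ℝ) ≤ ((⌊x⌋ + s : ℤ) : ℝ) := by push_cast; rw [hsr]; linarith
        exact_mod_cast this
      · have h4 : (((4 ^ (h ^ 2 + h + 3) : ℕ) : ℤ) : ℝ) = 4 * C := by
          push_cast; rw [hCdef, pow_succ 4 (h ^ 2 + h + 2)]; ring
        have : ((⌊x⌋ + s : ℤ) : ℝ) ≤ (((4 ^ (h ^ 2 + h + 3) : ℕ) : ℤ) : ℝ) := by
          rw [h4]; push_cast; rw [hsr]; linarith
        exact_mod_cast this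
    exact ⟨(bound _ hre).1, (bound _ hre).2, (bound _ him).1, (bound _ him).2⟩

end Draw

/-- For every `c > 0` and every sufficiently large `n`, every tree on `n` vertices of maximum
degree at most five has a minimum weight grid drawing of size `W × H` with
`W * H < c * (2 ^ (n ^ 2) * 2 ^ (n ^ 2))`. -/
theorem result : ∀ c : ℝ, 0 < c → ∃ N : ℕ, ∀ n : ℕ, N ≤ n →
    ∀ T : SimpleGraph (Fin n), T.IsTree → (∀ v, (T.neighborSet v).ncard ≤ 5) →
      ∃ (W H : ℕ) (φ : Fin n → ℤ × ℤ), IsMinWeightDrawing T φ ∧ FitsGrid W H φ ∧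
        (W : ℝ) * (H : ℝ) < c * (2 ^ (n ^ 2) * 2 ^ (n ^ 2)) := by
  intro c hc
  obtain ⟨m, hm⟩ := exists_pow_lt_of_lt_one hc (by norm_num : (1 / 2 : ℝ) < 1)
  refine ⟨m + 6, fun n hn T hT hdeg => ?_⟩
  obtain ⟨φ, h1, h2⟩ := exists_drawing T hT hdeg
  refine ⟨_, _, φ, h1, h2, ?_⟩
  have hexp : 4 * ((n / 2) ^ 2 + n / 2 + 3) ≤ n ^ 2 + 2 * n + 12 := by
    have h3 : 2 * (n / 2) ≤ n := Nat.mul_div_le n 2
    have h3' : (2 * (n / 2)) ^ 2 ≤ n ^ 2 := Nat.pow_le_pow_left h3 2
    rw [mul_pow] at h3'
    omega
  have hbig : n ^ 2 + 2 * n + 12 + m ≤ n ^ 2 + n ^ 2 := by nlinarith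
  have hsq : (((4 ^ ((n / 2) ^ 2 + n / 2 + 3) : ℕ) : ℝ)) * ((4 ^ ((n / 2) ^ 2 + n / 2 + 3) : ℕ) : ℝ)
      = 2 ^ (4 * ((n / 2) ^ 2 + n / 2 + 3)) := by
    push_cast
    rw [← mul_pow, pow_mul]
    norm_num
  rw [hsq, ← pow_add]
  have h4 : (2 : ℝ) ^ (4 * ((n / 2) ^ 2 + n / 2 + 3)) * 2 ^ m ≤ 2 ^ (n ^ 2 + n ^ 2) := by
    rw [← pow_add]
    exact pow_le_pow_right₀ (by norm_num) (by omega)
  have h5 : (1 : ℝ) < c * 2 ^ m := by
    have h6 : (1 / 2 : ℝ) ^ m * 2 ^ m = 1 := by rw [← mul_pow]; norm_num
    have h7 : (0 : ℝ) < 2 ^ m := by positivity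
    nlinarith
  have h8 : (0 : ℝ) < 2 ^ (4 * ((n / 2) ^ 2 + n / 2 + 3)) := by positivity
  have h9 : (0 : ℝ) < 2 ^ m := by positivity
  calc (2 : ℝ) ^ (4 * ((n / 2) ^ 2 + n / 2 + 3))
      < 2 ^ (4 * ((n / 2) ^ 2 + n / 2 + 3)) * (c * 2 ^ m) := by nlinarith
    _ = c * (2 ^ (4 * ((n / 2) ^ 2 + n / 2 + 3)) * 2 ^ m) := by ring
    _ ≤ c * 2 ^ (n ^ 2 + n ^ 2) := mul_le_mul_of_nonneg_left h4 hc.le

end Pool.Agent.Results.MP_9afe8f_co.Disproof
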